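import Pool.Agent.H26.QX.Defs

/-!
# (RE) a quadratic form of large rank is exact in low degrees
-/

namespace H26QX

open Finset

section dec

variable {K : Type*} [Field K] {σ : Type*} [DecidableEq σ] {i j : σ}

/-- the elements that do not involve the variables `i`, `j` -/
def Av (K : Type*) [Field K] {σ : Type*} [DecidableEq σ] (i j : σ) : Subring (SqK K σ) where
  carrier := {f | ∀ T, (i ∈ T ∨ j ∈ T) → f T = 0}
  zero_mem' := fun T _ => rfl
  one_mem' := fun T hT => by
    rw [SqK.one_apply, if_neg]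
    rintro rfl
    simp at hT
  add_mem' := by
    intro f g hf hg T hT
    rw [SqK.add_apply, hf T hT, hg T hT, add_zero]
  neg_mem' := by
    intro f hf T hT
    change -(f T) = 0
    rw [hf T hT, neg_zero]
  mul_mem' := by
    intro f g hf hg T hT
    by_contra h
    obtain ⟨S, hS, h1, h2⟩ := SqK.exists_of_mul_ne_zero h
    rcases hT with hT | hT
    · by_cases hi : i ∈ S
      · exact h1 (hf S (Or.inl hi))
      · exact h2 (hg _ (Or.inl (mem_sdiff.mpr ⟨hT, hi⟩)))
    · by_cases hi : j ∈ S
      · exact h1 (hf S (Or.inr hi))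
      · exact h2 (hg _ (Or.inr (mem_sdiff.mpr ⟨hT, hi⟩)))

theorem mem_Av {f : SqK K σ} : f ∈ Av K i j ↔ ∀ T, (i ∈ T ∨ j ∈ T) → f T = 0 := Iff.rfl

/-- the assembly of four coefficients -/
def asm (i j : σ) (f0 f1 f2 f3 : SqK K σ) : SqK K σ :=
  f0 + SqK.mono {i} * f1 + SqK.mono {j} * f2 + SqK.mono {i, j} * f3

theorem asm_apply (f0 f1 f2 f3 : SqK K σ) (T : Finset σ) :
    asm i j f0 f1 f2 f3 T = f0 T + (if i ∈ T then f1 (T.erase i) else 0)
      + (if j ∈ T then f2 (T.erase j) else 0)
      + (if i ∈ T ∧ j ∈ T then f3 ((T.erase i).erase j) else 0) := by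
  unfold asm
  rw [SqK.add_apply, SqK.add_apply, SqK.add_apply, SqK.mono_mul_apply, SqK.mono_mul_apply,
    SqK.mono_mul_apply]
  simp only [singleton_subset_iff, insert_subset_iff, sdiff_singleton_eq_erase]
  have h : T \ {i, j} = (T.erase i).erase j := by
    ext x
    simp only [mem_sdiff, mem_insert, mem_singleton, mem_erase, not_or]
    tauto
  rw [h]

/-- a coefficient of `f` -/
def co (i j : σ) (g : Finset σ → Finset σ) (f : SqK K σ) : SqK K σ :=
  fun T => if i ∉ T ∧ j ∉ T then f (g T) else 0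

theorem co_apply (g : Finset σ → Finset σ) (f : SqK K σ) (T : Finset σ) :
    co i j g f T = if i ∉ T ∧ j ∉ T then f (g T) else 0 := rfl

theorem co_mem (g : Finset σ → Finset σ) (f : SqK K σ) : co i j g f ∈ Av K i j := by
  intro T hT
  rw [co_apply, if_neg]
  rintro ⟨h1, h2⟩
  rcases hT with h | h
  · exact h1 h
  · exact h2 h

theorem co_ne (g : Finset σ → Finset σ) (f : SqK K σ) (T : Finset σ) (hT : co i j g f T ≠ 0) :
    i ∉ T ∧ j ∉ T ∧ f (g T) ≠ 0 := by
  rw [co_apply] at hT
  by_cases h : i ∉ T ∧ j ∉ T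
  · rw [if_pos h] at hT
    exact ⟨h.1, h.2, hT⟩
  · rw [if_neg h] at hT
    exact absurd rfl hT

variable (hij : i ≠ j)

include hij in
theorem asm_zero {f0 f1 f2 f3 : SqK K σ} (h0 : f0 ∈ Av K i j) (h1 : f1 ∈ Av K i j)
    (h2 : f2 ∈ Av K i j) (h3 : f3 ∈ Av K i j) (h : asm i j f0 f1 f2 f3 = 0) :
    f0 = 0 ∧ f1 = 0 ∧ f2 = 0 ∧ f3 = 0 := by
  have key : ∀ T, asm i j f0 f1 f2 f3 T = 0 := fun T => by rw [h]; rfl
  have e0 : f0 = 0 := by
    ext T
    by_cases hT : i ∈ T ∨ j ∈ T
    · exact h0 T hT
    · rw [not_or] at hT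
      have := key T
      rw [asm_apply, if_neg hT.1, if_neg hT.2, if_neg (fun h => hT.1 h.1)] at this
      simpa using this
  subst e0
  have e1 : f1 = 0 := by
    ext T
    by_cases hT : i ∈ T ∨ j ∈ T
    · exact h1 T hT
    · rw [not_or] at hT
      have := key (insert i T)
      have hj : j ∉ insert i T := by
        rw [mem_insert, not_or]
        exact ⟨Ne.symm hij, hT.2⟩
      rw [asm_apply, if_pos (mem_insert_self i T), if_neg hj, if_neg (fun h => hj h.2),
        erase_insert hT.1] at this
      simpa using this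
  subst e1
  have e2 : f2 = 0 := by
    ext T
    by_cases hT : i ∈ T ∨ j ∈ T
    · exact h2 T hT
    · rw [not_or] at hT
      have := key (insert j T)
      have hj : i ∉ insert j T := by
        rw [mem_insert, not_or]
        exact ⟨hij, hT.1⟩
      rw [asm_apply, if_neg hj, if_pos (mem_insert_self j T), if_neg (fun h => hj h.1),
        erase_insert hT.2] at this
      simpa using this
  subst e2
  refine ⟨rfl, rfl, rfl, ?_⟩
  ext T
  by_cases hT : i ∈ T ∨ j ∈ T
  · exact h3 T hT
  · rw [not_or] at hT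
    have := key (insert i (insert j T))
    have hj : j ∈ insert i (insert j T) := mem_insert_of_mem (mem_insert_self j T)
    have hi : i ∉ insert j T := by
      rw [mem_insert, not_or]
      exact ⟨hij, hT.1⟩
    rw [asm_apply, if_pos (mem_insert_self i _), if_pos hj, if_pos ⟨mem_insert_self i _, hj⟩,
      erase_insert hi, erase_insert hT.2] at this
    simpa using this

include hij in
theorem exists_asm (f : SqK K σ) : ∃ f0 ∈ Av K i j, ∃ f1 ∈ Av K i j, ∃ f2 ∈ Av K i j,
    ∃ f3 ∈ Av K i j, f = asm i j f0 f1 f2 f3 ∧ (∀ T, f0 T ≠ 0 → f T ≠ 0) ∧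
      (∀ T, f1 T ≠ 0 → i ∉ T ∧ j ∉ T ∧ f (insert i T) ≠ 0) ∧
      (∀ T, f2 T ≠ 0 → i ∉ T ∧ j ∉ T ∧ f (insert j T) ≠ 0) ∧
      (∀ T, f3 T = if i ∉ T ∧ j ∉ T then f (insert i (insert j T)) else 0) := by
  refine ⟨co i j id f, co_mem _ _, co i j (fun T => insert i T) f, co_mem _ _,
    co i j (fun T => insert j T) f, co_mem _ _,
    co i j (fun T => insert i (insert j T)) f, co_mem _ _, ?_,
    fun T hT => (co_ne _ _ T hT).2.2, fun T hT => co_ne _ _ T hT, fun T hT => co_ne _ _ T hT,
    fun T => rfl⟩
  ext T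
  rw [asm_apply]
  have cz : ∀ (g : Finset σ → Finset σ) (S : Finset σ), (i ∈ S ∨ j ∈ S) → co i j g f S = 0 :=
    fun g S hS => co_mem g f S hS
  have cp : ∀ (g : Finset σ → Finset σ) (S : Finset σ), i ∉ S → j ∉ S →
      co i j g f S = f (g S) := fun g S h1 h2 => if_pos ⟨h1, h2⟩
  by_cases hi : i ∈ T
  · by_cases hj : j ∈ T
    · have h1 : j ∈ T.erase i := mem_erase.mpr ⟨Ne.symm hij, hj⟩
      have h2 : i ∈ T.erase j := mem_erase.mpr ⟨hij, hi⟩
      rw [if_pos hi, if_pos hj, if_pos ⟨hi, hj⟩, cz _ T (Or.inl hi), cz _ _ (Or.inr h1),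
        cz _ _ (Or.inl h2), cp _ _ (fun h => (mem_erase.mp (mem_erase.mp h).2).1 rfl)
        (fun h => (mem_erase.mp h).1 rfl), insert_erase h1, insert_erase hi]
      simp
    · have h1 : j ∉ T.erase i := fun h => hj (mem_of_mem_erase h)
      rw [if_pos hi, if_neg hj, if_neg (fun h => hj h.2), cz _ T (Or.inl hi),
        cp _ _ (notMem_erase i T) h1, insert_erase hi]
      simp
  · by_cases hj : j ∈ T
    · have h1 : i ∉ T.erase j := fun h => hi (mem_of_mem_erase h)
      rw [if_neg hi, if_pos hj, if_neg (fun h => hi h.1), cz _ T (Or.inr hj),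
        cp _ _ h1 (notMem_erase j T), insert_erase hj]
      simp
    · rw [if_neg hi, if_neg hj, if_neg (fun h => hi h.1), cp _ _ hi hj]
      simp

end dec

section rank

theorem mrank_add_le {K : Type*} [Field K] {σ : Type*} [Fintype σ] (A B : Matrix σ σ K) :
    (A + B).rank ≤ A.rank + B.rank := by
  classical
  unfold Matrix.rank
  have h : LinearMap.range (A + B).mulVecLin ≤
      LinearMap.range A.mulVecLin ⊔ LinearMap.range B.mulVecLin := by
    rintro _ ⟨v, rfl⟩
    rw [Matrix.mulVecLin_add]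
    exact Submodule.add_mem_sup ⟨v, rfl⟩ ⟨v, rfl⟩
  exact (Submodule.finrank_mono h).trans (Submodule.finrank_add_le_finrank_add_finrank _ _)

variable {K : Type*} [Field K] {σ : Type*} [DecidableEq σ]

theorem mat_add (f g : SqK K σ) : mat (f + g) = mat f + mat g := by
  ext a b
  rw [Matrix.add_apply]
  unfold mat
  split_ifs
  · rw [add_zero]
  · rfl

theorem mat_mul [CharP K 2] (X Y : SqK K σ) (hX : X ∈ SqK.V K σ 1) :
    mat (X * Y) = Matrix.vecMulVec (fun a => X {a}) (fun a => Y {a})
      + Matrix.vecMulVec (fun a => Y {a}) (fun a => X {a}) := by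
  ext a b
  rw [Matrix.add_apply, Matrix.vecMulVec_apply, Matrix.vecMulVec_apply]
  unfold mat
  split_ifs with hab
  · subst hab
    rw [mul_comm (Y {a})]
    exact (CharTwo.add_self_eq_zero _).symm
  · have hX0 : X ∅ = 0 := by
      by_contra h
      have := hX ∅ h
      simp at this
    have hX2 : X {a, b} = 0 := by
      by_contra h
      have := hX _ h
      rw [card_pair hab] at this
      omega
    have hnm : a ∉ ({b} : Finset σ) := by
      rw [mem_singleton]; exact hab
    have hps : ∀ F : Finset σ → K, ∑ S ∈ ({b} : Finset σ).powerset, F S = F ∅ + F {b} := by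
      intro F
      have h1 : ({b} : Finset σ) = insert b ∅ := rfl
      rw [h1, sum_powerset_insert (notMem_empty b), powerset_empty, sum_singleton, sum_singleton]
    have e1 : insert a (∅ : Finset σ) = {a} := rfl
    rw [SqK.mul_apply, sum_powerset_insert hnm, hps, hps, hX0, zero_mul, zero_add, e1]
    have e2 : ({a, b} : Finset σ) \ {b} = {a} := by
      ext x
      simp only [mem_sdiff, mem_insert, mem_singleton]
      constructor
      · rintro ⟨h | h, h'⟩
        · exact h
        · exact absurd h h'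
      · rintro rfl
        exact ⟨Or.inl rfl, hab⟩
    have e3 : ({a, b} : Finset σ) \ {a} = {b} := by
      ext x
      simp only [mem_sdiff, mem_insert, mem_singleton]
      constructor
      · rintro ⟨h | h, h'⟩
        · exact absurd h h'
        · exact h
      · rintro rfl
        exact ⟨Or.inr rfl, Ne.symm hab⟩
    rw [e2, e3, hX2, zero_mul, add_zero]
    ring

end rank

theorem rank_exact {K : Type*} [Field K] [CharP K 2] {σ : Type*} [DecidableEq σ] [Fintype σ]
    (ρ : ℕ) (q : SqK K σ) (hq : q ∈ SqK.V K σ 2) (hr : 2 * ρ ≤ (mat q).rank) (s : ℕ) (hs : s < ρ)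
    (x : SqK K σ) (hx : x ∈ SqK.V K σ s) (h0 : q * x = 0) : ∃ y, x = q * y := by
  induction ρ generalizing q s x with
  | zero => exact absurd hs (Nat.not_lt_zero s)
  | succ ρ ih =>
    -- a non-zero entry
    obtain ⟨i, j, hne⟩ : ∃ i j, mat q i j ≠ 0 := by
      by_contra h
      push Not at h
      have h1 : mat q = 0 := by
        ext a b
        exact h a b
      rw [h1, Matrix.rank_zero] at hr
      omega
    have hij : i ≠ j := by
      intro h
      apply hne
      unfold mat
      rw [if_pos h]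
    have hp : q {i, j} ≠ 0 := by
      unfold mat at hne
      rwa [if_neg hij] at hne
    obtain ⟨q0, hq0, a, ha, b, hb, q3, hq3, hqe, hq0', ha', hb', hq3'⟩ := exists_asm hij q
    obtain ⟨x0, hx0, x1, hx1, x2, hx2, x3, hx3, hxe, hx0', hx1', hx2', hx3'⟩ := exists_asm hij x
    -- constants
    set p : K := q {i, j} with hpdef
    let P : SqK K σ := p • 1
    let P' : SqK K σ := p⁻¹ • 1
    have hPP : P * P' = 1 := by
      show (p • (1 : SqK K σ)) * (p⁻¹ • 1) = 1
      rw [SqK.smul_mul', one_mul, smul_smul, mul_inv_cancel₀ hp, one_smul]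
    have hsmul : ∀ (c : K) (f : SqK K σ), f ∈ Av K i j → c • f ∈ Av K i j := by
      intro c f hf T hT
      rw [SqK.smul_apply, hf T hT, mul_zero]
    have hPA : P ∈ Av K i j := hsmul _ _ (one_mem _)
    have hPA' : P' ∈ Av K i j := hsmul _ _ (one_mem _)
    have hq3P : q3 = P := by
      ext T
      rw [hq3' T]
      show _ = (p • (1 : SqK K σ)) T
      rw [SqK.smul_apply, SqK.one_apply]
      by_cases hT : T = ∅
      · subst hT
        rw [if_pos (by simp), if_pos rfl, mul_one]
        rfl
      · rw [if_neg hT, mul_zero]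
        split_ifs with h
        · by_contra hne'
          have h2 := hq _ hne'
          have h3 : i ∉ insert j T := by
            rw [mem_insert, not_or]
            exact ⟨hij, h.1⟩
          rw [card_insert_of_notMem h3, card_insert_of_notMem h.2] at h2
          exact hT (card_eq_zero.mp (by omega))
        · rfl
    have haV : a ∈ SqK.V K σ 1 := by
      intro T hT
      obtain ⟨h1, h2, h3⟩ := ha' T hT
      have h4 := hq _ h3
      rw [card_insert_of_notMem h1] at h4
      omega
    have hbV : b ∈ SqK.V K σ 1 := by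
      intro T hT
      obtain ⟨h1, h2, h3⟩ := hb' T hT
      have h4 := hq _ h3
      rw [card_insert_of_notMem h2] at h4
      omega
    have hq0V : q0 ∈ SqK.V K σ 2 := fun T hT => hq T (hq0' T hT)
    have hmono : (SqK.mono {i, j} : SqK K σ) = SqK.mono {i} * SqK.mono {j} := by
      rw [SqK.mono_mul_mono (by rw [disjoint_singleton]; exact hij)]
      rfl
    have hmV : ∀ l : σ, (SqK.mono {l} : SqK K σ) ∈ SqK.V K σ 1 := by
      intro l T hT
      rw [SqK.mono_apply] at hT
      by_cases h : T = {l}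
      · rw [h, card_singleton]
      · rw [if_neg h] at hT
        exact absurd rfl hT
    let xi : SqK K σ := SqK.mono {i}
    let xj : SqK K σ := SqK.mono {j}
    let X : SqK K σ := P * xi + b
    let Y : SqK K σ := xj + P' * a
    have hPm : ∀ (c : K) (f : SqK K σ), (c • (1 : SqK K σ)) * f = c • f := by
      intro c f
      rw [SqK.smul_mul', one_mul]
    have hXV : X ∈ SqK.V K σ 1 := by
      refine Submodule.add_mem _ ?_ hbV
      show (p • (1 : SqK K σ)) * xi ∈ _
      rw [hPm]
      exact Submodule.smul_mem _ _ (hmV i)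
    have hYV : Y ∈ SqK.V K σ 1 := by
      refine Submodule.add_mem _ (hmV j) ?_
      show (p⁻¹ • (1 : SqK K σ)) * a ∈ _
      rw [hPm]
      exact Submodule.smul_mem _ _ haV
    have hXX : X * X = 0 := SqK.sq_eq_zero le_rfl hXV
    have hYY : Y * Y = 0 := SqK.sq_eq_zero le_rfl hYV
    let q' : SqK K σ := q0 - P' * (a * b)
    have hqe2 : q = X * Y + q' := by
      rw [hqe]
      show asm i j q0 a b q3 = (P * xi + b) * (xj + P' * a) + (q0 - P' * (a * b))
      unfold asm
      rw [hmono, hq3P]
      show q0 + xi * a + xj * b + xi * xj * P = _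
      linear_combination (-(xi * a)) * hPP
    have hq'A : q' ∈ Av K i j :=
      Subring.sub_mem _ hq0 (Subring.mul_mem _ hPA' (Subring.mul_mem _ ha hb))
    have hq'V : q' ∈ SqK.V K σ 2 := by
      refine Submodule.sub_mem _ hq0V ?_
      show (p⁻¹ • (1 : SqK K σ)) * (a * b) ∈ _
      rw [hPm]
      exact Submodule.smul_mem _ _ (SqK.mul_mem_V haV hbV)
    have hrank : 2 * ρ ≤ (mat q').rank := by
      have h1 : mat q = mat (X * Y) + mat q' := by rw [← mat_add, ← hqe2]
      have h2 : (mat (X * Y)).rank ≤ 2 := by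
        rw [mat_mul X Y hXV]
        refine (mrank_add_le _ _).trans ?_
        have h3 := Matrix.rank_vecMulVec_le (fun a => X {a}) (fun a => Y {a})
        have h4 := Matrix.rank_vecMulVec_le (fun a => Y {a}) (fun a => X {a})
        omega
      have h5 : (mat q).rank ≤ (mat (X * Y)).rank + (mat q').rank := by
        rw [h1]
        exact mrank_add_le _ _
      omega
    -- the coefficients of `x` with respect to `1, X, Y, XY`
    let d0 : SqK K σ := P' * x3
    let b0 : SqK K σ := P' * (x1 - P' * (a * x3))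
    let c0 : SqK K σ := x2 - P' * (b * x3)
    let a0 : SqK K σ := x0 - P' * (b * x1) - P' * (a * x2) + P' * (P' * (a * (b * x3)))
    have hd0 : d0 ∈ Av K i j := Subring.mul_mem _ hPA' hx3
    have hb0 : b0 ∈ Av K i j := Subring.mul_mem _ hPA'
      (Subring.sub_mem _ hx1 (Subring.mul_mem _ hPA' (Subring.mul_mem _ ha hx3)))
    have hc0 : c0 ∈ Av K i j :=
      Subring.sub_mem _ hx2 (Subring.mul_mem _ hPA' (Subring.mul_mem _ hb hx3))
    have ha0 : a0 ∈ Av K i j :=
      Subring.add_mem _ (Subring.sub_mem _ (Subring.sub_mem _ hx0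
        (Subring.mul_mem _ hPA' (Subring.mul_mem _ hb hx1)))
        (Subring.mul_mem _ hPA' (Subring.mul_mem _ ha hx2)))
        (Subring.mul_mem _ hPA' (Subring.mul_mem _ hPA' (Subring.mul_mem _ ha
          (Subring.mul_mem _ hb hx3))))
    have hxe2 : x = a0 + b0 * X + c0 * Y + d0 * (X * Y) := by
      rw [hxe]
      unfold asm
      rw [hmono]
      show x0 + xi * x1 + xj * x2 + xi * xj * x3
        = (x0 - P' * (b * x1) - P' * (a * x2) + P' * (P' * (a * (b * x3))))
          + (P' * (x1 - P' * (a * x3))) * (P * xi + b)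
          + (x2 - P' * (b * x3)) * (xj + P' * a)
          + (P' * x3) * ((P * xi + b) * (xj + P' * a))
      linear_combination (-(xi * x1) + xi * P' * a * x3 - xi * xj * x3 - xi * P' * a * x3) * hPP
    -- expansion of `q * x`
    have hexp : asm i j (q' * a0 + q' * b0 * b + q' * c0 * (P' * a) + (a0 + q' * d0) * (b * (P' * a)))
        (q' * b0 * P + (a0 + q' * d0) * (P * (P' * a)))
        (q' * c0 + (a0 + q' * d0) * b) ((a0 + q' * d0) * P) = 0 := by
      rw [← h0, hqe2, hxe2]
      unfold asm
      rw [hmono]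
      have e1 : (X * Y + q') * (a0 + b0 * X + c0 * Y + d0 * (X * Y))
          = q' * a0 + q' * b0 * X + q' * c0 * Y + (a0 + q' * d0) * (X * Y) := by
        linear_combination (b0 * Y + d0 * Y * Y) * hXX + (c0 * X) * hYY
      rw [e1]
      show _ = q' * a0 + q' * b0 * (P * xi + b) + q' * c0 * (xj + P' * a)
        + (a0 + q' * d0) * ((P * xi + b) * (xj + P' * a))
      show _ + xi * _ + xj * _ + xi * xj * _ = _
      ring
    have hm := fun {f g : SqK K σ} (hf : f ∈ Av K i j) (hg : g ∈ Av K i j) =>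
      Subring.mul_mem (Av K i j) hf hg
    have hA := fun {f g : SqK K σ} (hf : f ∈ Av K i j) (hg : g ∈ Av K i j) =>
      Subring.add_mem (Av K i j) hf hg
    have hE : a0 + q' * d0 ∈ Av K i j := hA ha0 (hm hq'A hd0)
    obtain ⟨z0, z1, z2, z3⟩ := asm_zero hij
      (hA (hA (hA (hm hq'A ha0) (hm (hm hq'A hb0) hb)) (hm (hm hq'A hc0) (hm hPA' ha)))
        (hm hE (hm hb (hm hPA' ha))))
      (hA (hm (hm hq'A hb0) hPA) (hm hE (hm hPA (hm hPA' ha))))
      (hA (hm hq'A hc0) (hm hE hb)) (hm hE hPA) hexp
    have y3 : a0 + q' * d0 = 0 := by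
      have : (a0 + q' * d0) * P * P' = 0 := by rw [z3, zero_mul]
      rwa [mul_assoc, hPP, mul_one] at this
    have y2 : q' * c0 = 0 := by
      rw [y3, zero_mul, add_zero] at z2
      exact z2
    have y1 : q' * b0 = 0 := by
      rw [y3, zero_mul, add_zero] at z1
      have : q' * b0 * P * P' = 0 := by rw [z1, zero_mul]
      rwa [mul_assoc, hPP, mul_one] at this
    have hneg : ∀ f : SqK K σ, f + f = 0 := by
      intro f
      ext T
      rw [SqK.add_apply, SqK.zero_apply]
      exact CharTwo.add_self_eq_zero _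
    -- homogeneity
    have hx1c : ∀ T, x1 T ≠ 0 → T.card + 1 = s := by
      intro T hT
      obtain ⟨h1, h2, h3⟩ := hx1' T hT
      have h4 := hx _ h3
      rwa [card_insert_of_notMem h1] at h4
    have hx2c : ∀ T, x2 T ≠ 0 → T.card + 1 = s := by
      intro T hT
      obtain ⟨h1, h2, h3⟩ := hx2' T hT
      have h4 := hx _ h3
      rwa [card_insert_of_notMem h2] at h4
    have hx3c : ∀ T, x3 T ≠ 0 → T.card + 2 = s := by
      intro T hT
      rw [hx3'] at hT
      by_cases h : i ∉ T ∧ j ∉ T
      · rw [if_pos h] at hT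
        have h4 := hx _ hT
        have h3 : i ∉ insert j T := by
          rw [mem_insert, not_or]
          exact ⟨hij, h.1⟩
        rw [card_insert_of_notMem h3, card_insert_of_notMem h.2] at h4
        omega
      · rw [if_neg h] at hT
        exact absurd rfl hT
    have hprod : ∀ (g : SqK K σ), g ∈ SqK.V K σ 1 → ∀ T, (g * x3) T ≠ 0 → T.card + 1 = s := by
      intro g hg T hT
      obtain ⟨S, hS, h1, h2⟩ := SqK.exists_of_mul_ne_zero hT
      have h3 := hg S h1
      have h4 := hx3c _ h2
      have h5 := card_sdiff_add_card_eq_card hS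
      omega
    have hcomb : ∀ (f g : SqK K σ) (c : K), (∀ T, f T ≠ 0 → T.card + 1 = s) →
        (∀ T, g T ≠ 0 → T.card + 1 = s) → ∀ T, (f - c • g) T ≠ 0 → T.card + 1 = s := by
      intro f g c hf hg T hT
      by_cases h : f T = 0
      · apply hg T
        intro h'
        apply hT
        show f T - c * g T = 0
        rw [h, h', mul_zero, sub_zero]
      · exact hf T h
    have hc0c : ∀ T, c0 T ≠ 0 → T.card + 1 = s := by
      intro T hT
      have e : c0 = x2 - p⁻¹ • (b * x3) := by
        show x2 - (p⁻¹ • (1 : SqK K σ)) * (b * x3) = _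
        rw [hPm]
      rw [e] at hT
      exact hcomb _ _ _ hx2c (hprod b hbV) T hT
    have hb0c : ∀ T, b0 T ≠ 0 → T.card + 1 = s := by
      intro T hT
      have e : b0 = p⁻¹ • (x1 - p⁻¹ • (a * x3)) := by
        show (p⁻¹ • (1 : SqK K σ)) * (x1 - (p⁻¹ • (1 : SqK K σ)) * (a * x3)) = _
        rw [hPm, hPm]
      rw [e, SqK.smul_apply] at hT
      exact hcomb _ _ _ hx1c (hprod a haV) T (right_ne_zero_of_mul hT)
    obtain ⟨b1, hb1⟩ : ∃ b1, b0 = q' * b1 := by
      rcases Nat.eq_zero_or_pos s with hs0 | hs0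
      · refine ⟨0, ?_⟩
        rw [mul_zero]
        ext T
        by_contra h
        have := hb0c T h
        omega
      · exact ih q' hq'V hrank (s - 1) (by omega) b0
          (fun T hT => by have := hb0c T hT; omega) y1
    obtain ⟨c1, hc1⟩ : ∃ c1, c0 = q' * c1 := by
      rcases Nat.eq_zero_or_pos s with hs0 | hs0
      · refine ⟨0, ?_⟩
        rw [mul_zero]
        ext T
        by_contra h
        have := hc0c T h
        omega
      · exact ih q' hq'V hrank (s - 1) (by omega) c0
          (fun T hT => by have := hc0c T hT; omega) y2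
    refine ⟨d0 + b1 * X + c1 * Y, ?_⟩
    rw [hqe2, hxe2, hb1, hc1]
    have e2 := hneg (q' * d0)
    linear_combination y3 - e2 - (b1 * Y) * hXX - (c1 * X) * hYY

end H26QX
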