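import Pool.Agent.H26.QX.Dade
import Pool.Agent.H26.QX.RankExact
import Pool.Agent.H26.IX.Basic

/-!
# From ranks of all combinations over the algebraic closure to semi-regularity over `F₂`
-/

namespace H26QX

open Finset

section

variable {K : Type*} [Field K] {σ : Type*} [DecidableEq σ]

/-- multiplication by `g` -/
def mK (g : SqK K σ) : SqK K σ →ₗ[K] SqK K σ where
  toFun f := g * f
  map_add' := mul_add g
  map_smul' c f := SqK.mul_smul' c g f

@[simp] lemma mK_apply (g f : SqK K σ) : mK g f = g * f := rfl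

/-- projection to the component of degree `s` -/
def piK (s : ℤ) : SqK K σ →ₗ[K] SqK K σ where
  toFun f := fun T => if (T.card : ℤ) = s then f T else 0
  map_add' f g := by
    ext T
    by_cases h : (T.card : ℤ) = s <;> simp [h]
  map_smul' c f := by
    ext T
    by_cases h : (T.card : ℤ) = s <;> simp [h, SqK.smul_apply]

lemma piK_apply (s : ℤ) (f : SqK K σ) (T : Finset σ) :
    piK s f T = if (T.card : ℤ) = s then f T else 0 := rfl

lemma piK_idem (s : ℤ) (f : SqK K σ) : piK s (piK s f) = piK s f := by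
  ext T
  rw [piK_apply, piK_apply]
  by_cases h : (T.card : ℤ) = s <;> simp [h]

lemma piK_mul {d : ℕ} {g : SqK K σ} (hg : g ∈ SqK.V K σ d) (s : ℤ) (f : SqK K σ) :
    piK (s + d) (g * f) = g * piK s f := by
  ext T
  rw [piK_apply, SqK.mul_apply, SqK.mul_apply]
  by_cases h : (T.card : ℤ) = s + d
  · rw [if_pos h]
    refine Finset.sum_congr rfl fun S hS => ?_
    rw [piK_apply]
    by_cases h1 : g S = 0
    · rw [h1, zero_mul, zero_mul]
    · have h2 := hg S h1
      have h3 := Finset.card_sdiff_add_card_eq_card (Finset.mem_powerset.1 hS)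
      rw [if_pos (by omega)]
  · rw [if_neg h]
    symm
    refine Finset.sum_eq_zero fun S hS => ?_
    rw [piK_apply]
    by_cases h1 : g S = 0
    · rw [h1, zero_mul]
    · have h2 := hg S h1
      have h3 := Finset.card_sdiff_add_card_eq_card (Finset.mem_powerset.1 hS)
      rw [if_neg (by omega), mul_zero]

lemma piK_eq_self_iff (s : ℕ) (f : SqK K σ) : piK (s : ℤ) f = f ↔ f ∈ SqK.V K σ s := by
  constructor
  · intro h T hT
    by_contra hne
    rw [← h, piK_apply, if_neg (by exact_mod_cast hne)] at hT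
    exact hT rfl
  · intro h
    ext T
    rw [piK_apply]
    by_cases h1 : f T = 0
    · rw [h1]
      simp
    · rw [if_pos (by exact_mod_cast h T h1)]

lemma eq_zero_of_piK_neg {s : ℤ} (hs : s < 0) {f : SqK K σ} (h : piK s f = f) : f = 0 := by
  ext T
  rw [← h, piK_apply, if_neg (by omega)]
  rfl

end

section

variable {K : Type*} [Field K] [Algebra (ZMod 2) K] {σ : Type*} [DecidableEq σ]

/-- extension of scalars from `F₂` to `K` -/
def emb : H67SR.SqA σ →+* SqK K σ where
  toFun f := fun T => algebraMap (ZMod 2) K (f T)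
  map_zero' := by
    ext T
    exact map_zero _
  map_add' f g := by
    ext T
    exact map_add _ _ _
  map_one' := by
    ext T
    rw [SqK.one_apply, H67SR.SqA.one_apply]
    by_cases h : T = ∅ <;> simp [h]
  map_mul' f g := by
    ext T
    rw [SqK.mul_apply, H67SR.SqA.mul_apply, map_sum]
    exact Finset.sum_congr rfl fun S _ => map_mul _ _ _

lemma emb_apply (f : H67SR.SqA σ) (T : Finset σ) :
    (emb f : SqK K σ) T = algebraMap (ZMod 2) K (f T) := rfl

lemma emb_mem {d : ℕ} {f : H67SR.SqA σ}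
    (hf : f ∈ (H26IX.V d : Submodule (ZMod 2) (H67SR.SqA σ))) : (emb f : SqK K σ) ∈ SqK.V K σ d := by
  intro T hT
  refine hf T fun h => hT ?_
  rw [emb_apply, h, map_zero]

/-- a functional on the coefficients -/
def desc (φ : K →ₗ[ZMod 2] ZMod 2) (f : SqK K σ) : H67SR.SqA σ := fun T => φ (f T)

lemma desc_apply (φ : K →ₗ[ZMod 2] ZMod 2) (f : SqK K σ) (T : Finset σ) :
    desc φ f T = φ (f T) := rfl

lemma desc_add (φ : K →ₗ[ZMod 2] ZMod 2) (f g : SqK K σ) :
    desc φ (f + g) = desc φ f + desc φ g := by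
  ext T
  rw [desc_apply, SqK.add_apply, map_add]
  rfl

lemma desc_zero (φ : K →ₗ[ZMod 2] ZMod 2) : desc φ (0 : SqK K σ) = 0 := by
  ext T
  exact map_zero _

lemma desc_emb_mul (φ : K →ₗ[ZMod 2] ZMod 2) (g : H67SR.SqA σ) (f : SqK K σ) :
    desc φ (emb g * f) = g * desc φ f := by
  ext T
  rw [desc_apply, SqK.mul_apply, H67SR.SqA.mul_apply, map_sum]
  refine Finset.sum_congr rfl fun S _ => ?_
  rw [emb_apply, ← Algebra.smul_def, map_smul, smul_eq_mul]
  rfl

lemma desc_emb (φ : K →ₗ[ZMod 2] ZMod 2) (hφ : ∀ a, φ (algebraMap (ZMod 2) K a) = a)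
    (g : H67SR.SqA σ) : desc φ (emb g : SqK K σ) = g := by
  ext T
  exact hφ _

end

section

variable {K : Type*} [Field K] [Algebra (ZMod 2) K] {n m : ℕ}

/-- the alternating matrix of a combination -/
lemma mat_comb (lam : Fin m → H67SR.SqA (Fin n)) (c : Fin m → K) :
    mat (∑ i, c i • (emb (lam i) : SqK K (Fin n))) =
      Q c (fun i (p : Pr n) => lam i {p.1.1, p.1.2}) := by
  ext i j
  unfold mat Q
  have h : ∀ T : Finset (Fin n), (∑ i, c i • (emb (lam i) : SqK K (Fin n))) T
      = ∑ a, c a * algebraMap (ZMod 2) K (lam a T) := by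
    intro T
    rw [SqK.sum_apply]
    rfl
  rcases lt_trichotomy i j with hij | hij | hij
  · rw [if_neg hij.ne, dif_pos hij, h]
  · subst hij
    rw [if_pos rfl, dif_neg (lt_irrefl _), dif_neg (lt_irrefl _)]
  · rw [if_neg hij.ne', dif_neg hij.asymm, dif_pos hij, h, Finset.pair_comm]

theorem semireg_of_rank_aux [IsAlgClosed K] {a : ℕ} (lam : Fin m → H67SR.SqA (Fin n))
    (hlam : ∀ i, lam i ∈ (H26IX.V 2 : Submodule (ZMod 2) (H67SR.SqA (Fin n))))
    (hrank : ∀ c : Fin m → K, c ≠ 0 →
      n < (Q c (fun i (p : Pr n) => lam i {p.1.1, p.1.2})).rank + a)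
    (i : Fin m) (s : ℕ) (hs : 2 * s + 4 * (i : ℕ) + a < n) (ν : H67SR.SqA (Fin n))
    (hν : ν ∈ (H26IX.V s : Submodule (ZMod 2) (H67SR.SqA (Fin n))))
    (h : ν * lam i ∈ Ideal.span (lam '' {j | j < i})) :
    ν ∈ Ideal.span (lam '' {j | j ≤ i}) := by
  classical
  have hchar : CharP K 2 := charP_of_injective_algebraMap (algebraMap (ZMod 2) K).injective 2
  have hfd : FiniteDimensional K (SqK K (Fin n)) :=
    inferInstanceAs (FiniteDimensional K (Finset (Fin n) → K))
  let e : Fin m → SqK K (Fin n) := fun j => emb (lam j)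
  have he : ∀ j, e j ∈ SqK.V K (Fin n) 2 := fun j => emb_mem (hlam j)
  let t : Fin m → SqK K (Fin n) →ₗ[K] SqK K (Fin n) := fun j => mK (e j)
  -- exactness of all combinations
  have hex : ∀ c : Fin m → K, c ≠ 0 → ∀ s ≤ (((n + 1 - a) / 2 : ℕ) : ℤ) - 1,
      Ex piK (2 : ℤ) (⊥ : Submodule K (SqK K (Fin n))) (∑ i, c i • t i) s := by
    intro c hc s hs x hx hqx
    set q : SqK K (Fin n) := ∑ i, c i • e i with hq
    have hqa : ∀ y, (∑ i, c i • t i) y = q * y := by
      intro y
      rw [LinearMap.sum_apply, hq, Finset.sum_mul]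
      refine Finset.sum_congr rfl fun j _ => ?_
      rw [LinearMap.smul_apply, SqK.smul_mul']
      rfl
    have hq2 : q ∈ SqK.V K (Fin n) 2 :=
      Submodule.sum_mem _ fun j _ => Submodule.smul_mem _ _ (he j)
    rcases lt_or_ge s 0 with hneg | hnn
    · refine ⟨0, map_zero _, ?_⟩
      rw [eq_zero_of_piK_neg hneg hx, map_zero, sub_zero]
      exact Submodule.zero_mem _
    · obtain ⟨s', rfl⟩ := Int.eq_ofNat_of_zero_le hnn
      have hx' : x ∈ SqK.V K (Fin n) s' := (piK_eq_self_iff s' x).mp hx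
      rw [Submodule.mem_bot, hqa] at hqx
      have hrk : 2 * ((n + 1 - a) / 2) ≤ (mat q).rank := by
        have h1 := hrank c hc
        rw [← mat_comb lam c] at h1
        have h2 : mat q = mat (∑ i, c i • (emb (lam i) : SqK K (Fin n))) := rfl
        rw [h2]
        omega
      obtain ⟨y, hy⟩ := rank_exact ((n + 1 - a) / 2) q hq2 hrk s' (by omega) x hx' hqx
      refine ⟨piK ((s' : ℤ) - 2) y, piK_idem _ _, ?_⟩
      have h3 := piK_mul hq2 ((s' : ℤ) - 2) y
      rw [Nat.cast_ofNat, sub_add_cancel, ← hy, hx] at h3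
      rw [hqa, ← h3, sub_self]
      exact Submodule.zero_mem _
  have hd := dade (K := K) (M := SqK K (Fin n)) piK 2 (by norm_num) piK_idem t
    (fun j s x => by
      have := piK_mul (he j) s x
      rw [Nat.cast_ofNat] at this
      exact this)
    (fun j k x => by
      show e j * (e k * x) = e k * (e j * x)
      rw [mul_left_comm])
    (fun j x => by
      show e j * (e j * x) = 0
      rw [← mul_assoc, SqK.sq_eq_zero (by norm_num) (he j), zero_mul])
    ⊥ (fun s x hx => by
      rw [Submodule.mem_bot] at hx ⊢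
      rw [hx, map_zero])
    (fun j x hx => by
      rw [Submodule.mem_bot] at hx ⊢
      rw [hx, map_zero])
    ((((n + 1 - a) / 2 : ℕ) : ℤ) - 1) hex i (s : ℤ) (by omega)
  set J : Submodule K (SqK K (Fin n)) :=
    ⊥ ⊔ ⨆ j : {j : Fin m // j < i}, LinearMap.range (t j) with hJ
  have hJt : ∀ j : Fin m, j < i → ∀ y, e j * y ∈ J := by
    intro j hj y
    rw [hJ]
    refine Submodule.mem_sup_right ?_
    exact Submodule.mem_iSup_of_mem (⟨j, hj⟩ : {j : Fin m // j < i}) ⟨y, rfl⟩
  have hJm : ∀ g f, f ∈ J → g * f ∈ J := by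
    intro g f hf
    have h1 : J ≤ J.comap (mK g) := by
      conv_lhs => rw [hJ]
      refine sup_le bot_le (iSup_le ?_)
      rintro ⟨j, hj⟩ _ ⟨y, rfl⟩
      show g * (e j * y) ∈ J
      rw [mul_left_comm]
      exact hJt j hj _
    exact h1 hf
  -- membership over `K`
  have hmem : ∀ f ∈ Ideal.span (lam '' {j | j < i}), (emb f : SqK K (Fin n)) ∈ J := by
    intro f hf
    refine Submodule.span_induction ?_ ?_ ?_ ?_ hf
    · rintro _ ⟨j, hj, rfl⟩
      have := hJt j hj 1
      rwa [mul_one] at this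
    · rw [map_zero]
      exact J.zero_mem
    · intro x y _ _ hx hy
      rw [map_add]
      exact J.add_mem hx hy
    · intro g x _ hx
      rw [smul_eq_mul, map_mul]
      exact hJm _ _ hx
  obtain ⟨y, -, hy⟩ := hd (emb ν) ((piK_eq_self_iff s _).mpr (emb_mem hν)) (by
    have h1 := hmem _ h
    rw [map_mul, mul_comm] at h1
    exact h1)
  -- descent
  obtain ⟨φ, hφ⟩ := LinearMap.exists_leftInverse_of_injective (Algebra.linearMap (ZMod 2) K)
    (LinearMap.ker_eq_bot.mpr (algebraMap (ZMod 2) K).injective)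
  have hφ' : ∀ b, φ (algebraMap (ZMod 2) K b) = b := fun b => LinearMap.congr_fun hφ b
  have hle : Ideal.span (lam '' {j | j < i}) ≤ Ideal.span (lam '' {j | j ≤ i}) :=
    Ideal.span_mono (Set.image_mono fun j (hj : j < i) => (show j ≤ i from le_of_lt hj))
  have hdesc : ∀ f ∈ J, desc φ f ∈ Ideal.span (lam '' {j | j < i}) := by
    intro f hf
    rw [hJ, bot_sup_eq] at hf
    refine Submodule.iSup_induction _ (motive := fun f => desc φ f ∈
      Ideal.span (lam '' {j | j < i})) hf ?_ ?_ ?_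
    · rintro ⟨j, hj⟩ _ ⟨y, rfl⟩
      show desc φ (emb (lam j) * y) ∈ _
      rw [desc_emb_mul]
      exact Ideal.mul_mem_right _ _ (Ideal.subset_span ⟨j, hj, rfl⟩)
    · rw [desc_zero]
      exact Ideal.zero_mem _
    · intro x y hx hy
      rw [desc_add]
      exact Ideal.add_mem _ hx hy
  have hfin : ν = lam i * desc φ y + desc φ ((emb ν : SqK K (Fin n)) - t i y) := by
    rw [← desc_emb_mul φ (lam i) y, ← desc_add]
    have h1 : (emb (lam i) * y + ((emb ν : SqK K (Fin n)) - t i y)) = emb ν :=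
      add_sub_cancel _ _
    rw [h1, desc_emb φ hφ']
  rw [hfin]
  exact Ideal.add_mem _ (Ideal.mul_mem_right _ _ (Ideal.subset_span ⟨i, le_refl i, rfl⟩))
    (hle (hdesc _ hy))

end

theorem semireg_of_rank {n m a : ℕ} (lam : Fin m → H67SR.SqA (Fin n))
    (hlam : ∀ i, lam i ∈ (H26IX.V 2 : Submodule (ZMod 2) (H67SR.SqA (Fin n))))
    (hrank : ∀ c : Fin m → AlgebraicClosure (ZMod 2), c ≠ 0 →
      n < (Q c (fun i (p : Pr n) => lam i {p.1.1, p.1.2})).rank + a)
    (i : Fin m) (s : ℕ) (hs : 2 * s + 4 * (i : ℕ) + a < n) (ν : H67SR.SqA (Fin n))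
    (hν : ν ∈ (H26IX.V s : Submodule (ZMod 2) (H67SR.SqA (Fin n))))
    (h : ν * lam i ∈ Ideal.span (lam '' {j | j < i})) :
    ν ∈ Ideal.span (lam '' {j | j ≤ i}) :=
  semireg_of_rank_aux lam hlam hrank i s hs ν hν h

end H26QX
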