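import Pool.Agent.H26.QX.Defs

/-!
# Dade's lemma for commuting square zero operators, graded and modulo a submodule
-/

namespace H26QX

open Finset

section

variable {K M : Type*} [Field K] [AddCommGroup M] [Module K M]

/-- the relation `u x ≡ l y` modulo `N` in degree `s` -/
def DRel (π : ℤ → M →ₗ[K] M) (N : Submodule K M) (l u : M →ₗ[K] M) (s : ℤ) :
    Submodule K (M × M) where
  carrier := {p | π s p.1 = p.1 ∧ π s p.2 = p.2 ∧ u p.1 - l p.2 ∈ N}
  zero_mem' := by simp
  add_mem' := by
    rintro p q ⟨h1, h2, h3⟩ ⟨h4, h5, h6⟩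
    refine ⟨by simp [h1, h4], by simp [h2, h5], ?_⟩
    have h := N.add_mem h3 h6
    have e : u (p + q).1 - l (p + q).2 = u p.1 - l p.2 + (u q.1 - l q.2) := by
      simp only [Prod.fst_add, Prod.snd_add, map_add]
      abel
    rw [e]
    exact h
  smul_mem' := by
    rintro a p ⟨h1, h2, h3⟩
    refine ⟨by simp [h1], by simp [h2], ?_⟩
    have e : u (a • p).1 - l (a • p).2 = a • (u p.1 - l p.2) := by
      simp only [Prod.smul_fst, Prod.smul_snd, map_smul, smul_sub]
    rw [e]
    exact N.smul_mem a h3

lemma mem_DRel {π : ℤ → M →ₗ[K] M} {N : Submodule K M} {l u : M →ₗ[K] M} {s : ℤ} {x y : M} :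
    (x, y) ∈ DRel π N l u s ↔ π s x = x ∧ π s y = y ∧ u x - l y ∈ N := Iff.rfl

/-- the elements of degree `s` in `N + l M + u M` -/
def DP (π : ℤ → M →ₗ[K] M) (d : ℤ) (N : Submodule K M) (l u : M →ₗ[K] M) (s : ℤ) :
    Submodule K M where
  carrier := {x | ∃ g h, π (s - d) g = g ∧ π (s - d) h = h ∧ x - l g - u h ∈ N}
  zero_mem' := ⟨0, 0, by simp⟩
  add_mem' := by
    rintro x y ⟨g, h, hg, hh, hx⟩ ⟨g', h', hg', hh', hy⟩
    refine ⟨g + g', h + h', by simp [hg, hg'], by simp [hh, hh'], ?_⟩
    have e : x + y - l (g + g') - u (h + h') = x - l g - u h + (y - l g' - u h') := by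
      rw [map_add, map_add]
      abel
    rw [e]
    exact N.add_mem hx hy
  smul_mem' := by
    rintro a x ⟨g, h, hg, hh, hx⟩
    refine ⟨a • g, a • h, by simp [hg], by simp [hh], ?_⟩
    have e : a • x - l (a • g) - u (a • h) = a • (x - l g - u h) := by
      rw [map_smul, map_smul, smul_sub, smul_sub]
    rw [e]
    exact N.smul_mem a hx

lemma mem_DP {π : ℤ → M →ₗ[K] M} {d : ℤ} {N : Submodule K M} {l u : M →ₗ[K] M} {s : ℤ} {x : M} :
    x ∈ DP π d N l u s ↔ ∃ g h, π (s - d) g = g ∧ π (s - d) h = h ∧ x - l g - u h ∈ N := Iff.rfl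

end

theorem pair {K M : Type*} [Field K] [IsAlgClosed K] [AddCommGroup M] [Module K M]
    [FiniteDimensional K M] (π : ℤ → M →ₗ[K] M) (d : ℤ) (N : Submodule K M)
    (hidem : ∀ s x, π s (π s x) = π s x) (hN : ∀ s, ∀ x ∈ N, π s x ∈ N)
    (l u : M →ₗ[K] M) (hl : ∀ s x, π (s + d) (l x) = l (π s x))
    (hu : ∀ s x, π (s + d) (u x) = u (π s x))
    (hcomm : ∀ x, l (u x) = u (l x)) (hll : ∀ x, l (l x) = 0) (huu : ∀ x, u (u x) = 0)
    (hNl : ∀ x ∈ N, l x ∈ N) (hNu : ∀ x ∈ N, u x ∈ N) (s : ℤ)
    (h : ∀ a b : K, (a ≠ 0 ∨ b ≠ 0) → Ex π d N (a • l + b • u) s)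
    (h' : Ex π d N l (s + d)) :
    Ex π d (N ⊔ LinearMap.range l) u s := by
  classical
  have hl' : ∀ x, π (s - d) x = x → π s (l x) = l x := by
    intro x hx
    have h1 := hl (s - d) x
    rw [sub_add_cancel, hx] at h1
    exact h1
  have hu' : ∀ x, π (s - d) x = x → π s (u x) = u x := by
    intro x hx
    have h1 := hu (s - d) x
    rw [sub_add_cancel, hx] at h1
    exact h1
  -- exactness of `l` in degree `s`
  have hs : Ex π d N l s := by
    have h1 := h 1 0 (Or.inl one_ne_zero)
    rwa [one_smul, zero_smul, add_zero] at h1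
  set R : Submodule K (M × M) := DRel π N l u s with hR
  set V : Submodule K M := R.map (LinearMap.fst K M M) with hV
  have mV : ∀ x, x ∈ V ↔ ∃ y, (x, y) ∈ R := by
    intro x
    rw [hV, Submodule.mem_map]
    constructor
    · rintro ⟨⟨x', y⟩, hy, rfl⟩
      exact ⟨y, hy⟩
    · rintro ⟨y, hy⟩
      exact ⟨(x, y), hy, rfl⟩
  -- (1)
  have c1 : ∀ x y, (x, y) ∈ R → y ∈ V := by
    rintro x y ⟨hx, hy, hxy⟩
    have h1 : l (u y) ∈ N := by
      have h2 := hNu _ hxy
      have e : u (u x - l y) = - l (u y) := by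
        rw [map_sub, huu, hcomm, zero_sub]
      rw [e] at h2
      exact (Submodule.neg_mem_iff _).mp h2
    have h2 : π (s + d) (u y) = u y := by
      rw [hu, hy]
    obtain ⟨z, hz1, hz2⟩ := h' (u y) h2 h1
    rw [add_sub_cancel_right] at hz1
    exact (mV y).mpr ⟨z, hy, hz1, hz2⟩
  -- (2)
  have c2 : ∀ x y, (x, y) ∈ R → x ∈ DP π d N l u s → y ∈ DP π d N l u s := by
    rintro x y ⟨hx, hy, hxy⟩ ⟨g, k, hg, hk, hgk⟩
    have h1 : l (y - u g) ∈ N := by
      have h2 := hNu _ hgk
      have e : l (y - u g) = u (x - l g - u k) - (u x - l y) := by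
        rw [map_sub, map_sub, map_sub, huu, hcomm]
        abel
      rw [e]
      exact N.sub_mem h2 hxy
    obtain ⟨g', hg', hg2⟩ := hs (y - u g) (by rw [map_sub, hy, hu' g hg]) h1
    refine ⟨g', g, hg', hg, ?_⟩
    have e : y - l g' - u g = y - u g - l g' := by abel
    rw [e]
    exact hg2
  -- a linear choice of `y`
  let p : R →ₗ[K] V :=
    ((LinearMap.fst K M M).comp R.subtype).codRestrict V (fun q => (mV _).mpr ⟨q.1.2, q.2⟩)
  have hp : LinearMap.range p = ⊤ := by
    rw [LinearMap.range_eq_top]
    rintro ⟨x, hx⟩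
    obtain ⟨y, hy⟩ := (mV x).mp hx
    exact ⟨⟨(x, y), hy⟩, rfl⟩
  obtain ⟨σ, hσ⟩ := LinearMap.exists_rightInverse_of_surjective p hp
  have hσ1 : ∀ x : V, (σ x).1.1 = x.1 := by
    intro x
    have h1 := LinearMap.congr_fun hσ x
    exact congrArg Subtype.val h1
  let f : V →ₗ[K] V := ((LinearMap.snd K M M).comp (R.subtype.comp σ)).codRestrict V (fun x => by
    refine c1 x.1 _ ?_
    have h1 := (σ x).2
    rw [← hσ1 x]
    exact h1)
  have hf : ∀ x : V, (x.1, (f x).1) ∈ R := by
    intro x
    have h1 := (σ x).2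
    rw [← hσ1 x]
    exact h1
  let W : Submodule K V := (DP π d N l u s).comap V.subtype
  have hWf : W ≤ W.comap f := by
    intro x hx
    exact c2 _ _ (hf x) hx
  -- the quotient is zero
  have hW : W = ⊤ := by
    by_contra hne
    have hnt : Nontrivial (V ⧸ W) := Submodule.Quotient.nontrivial_iff.mpr hne
    obtain ⟨a, ha⟩ := Module.End.exists_eigenvalue (W.mapQ W f hWf : Module.End K (V ⧸ W))
    obtain ⟨v, hv⟩ := ha.exists_hasEigenvector
    obtain ⟨x, rfl⟩ := Submodule.Quotient.mk_surjective _ v
    have hv1 : x ∉ W := fun hx => hv.2 ((Submodule.Quotient.mk_eq_zero W).mpr hx)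
    have hv2 : f x - a • x ∈ W := by
      have h1 := hv.apply_eq_smul
      rw [Submodule.mapQ_apply, ← Submodule.Quotient.mk_smul] at h1
      exact (Submodule.Quotient.eq W).mp h1
    obtain ⟨g, k, hg, hk, hgk⟩ := hv2
    obtain ⟨hx, hy, hxy⟩ := hf x
    refine hv1 ?_
    have hgk' : (f x).1 - a • x.1 - l g - u k ∈ N := hgk
    have hop : ∀ z, ((-a) • l + (1 : K) • u) z = u z - a • l z := by
      intro z
      rw [LinearMap.add_apply, LinearMap.smul_apply, LinearMap.smul_apply, one_smul, neg_smul]
      abel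
    -- `(u - a l) (x - l k) ∈ N`
    have h1 : ((-a) • l + (1 : K) • u) (x.1 - l k) ∈ N := by
      have e : ((-a) • l + (1 : K) • u) (x.1 - l k)
          = (u x.1 - l (f x).1) + l ((f x).1 - a • x.1 - l g - u k) := by
        rw [hop]
        simp only [map_sub, map_smul, hll, hcomm, sub_zero]
        abel
      rw [e]
      exact N.add_mem hxy (hNl _ hgk')
    obtain ⟨y', hy', hy2⟩ := h (-a) 1 (Or.inr one_ne_zero) (x.1 - l k)
      (by rw [map_sub, hx, hl' k hk]) h1
    refine ⟨k - a • y', y', by rw [map_sub, map_smul, hk, hy'], hy', ?_⟩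
    have e : x.1 - l (k - a • y') - u y'
        = x.1 - l k - ((-a) • l + (1 : K) • u) y' := by
      rw [hop]
      simp only [map_sub, map_smul]
      abel
    show x.1 - l (k - a • y') - u y' ∈ N
    rw [e]
    exact hy2
  -- conclusion
  intro x hx hux
  obtain ⟨n, hn, w, ⟨z, rfl⟩, hnz⟩ := Submodule.mem_sup.mp hux
  have hxV : x ∈ V := by
    refine (mV x).mpr ⟨π s z, hx, hidem s z, ?_⟩
    have h1 : u x = π (s + d) n + l (π s z) := by
      have h2 : π (s + d) (u x) = u x := by rw [hu, hx]
      rw [← h2, ← hnz, map_add, hl]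
    rw [h1, add_sub_cancel_right]
    exact hN _ _ hn
  have hxW : (⟨x, hxV⟩ : V) ∈ W := by rw [hW]; trivial
  obtain ⟨g, k, hg, hk, hgk⟩ := hxW
  refine ⟨k, hk, ?_⟩
  have hgk' : x - l g - u k ∈ N := hgk
  have e : x - u k = (x - l g - u k) + l g := by abel
  rw [e]
  exact Submodule.add_mem_sup hgk' ⟨g, rfl⟩

/-- Dade's lemma, graded and modulo a submodule: if every nonzero combination of the commuting
square zero operators `t i` of degree `d` is exact on `M / N` in degrees at most `D`, then `t i` is
exact on `M / (N + ∑_{j < i} t j M)` in degrees at most `D - i d`. -/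
theorem dade {K M : Type*} [Field K] [CharP K 2] [IsAlgClosed K] [AddCommGroup M] [Module K M]
    [FiniteDimensional K M] (π : ℤ → M →ₗ[K] M) (d : ℤ) (hd : 0 ≤ d)
    (hidem : ∀ s x, π s (π s x) = π s x) {m : ℕ} (t : Fin m → M →ₗ[K] M)
    (ht : ∀ i s x, π (s + d) (t i x) = t i (π s x))
    (hcomm : ∀ i j x, t i (t j x) = t j (t i x)) (hsq : ∀ i x, t i (t i x) = 0)
    (N : Submodule K M) (hN : ∀ s, ∀ x ∈ N, π s x ∈ N) (hNt : ∀ i, ∀ x ∈ N, t i x ∈ N) (D : ℤ)
    (h : ∀ c : Fin m → K, c ≠ 0 → ∀ s ≤ D, Ex π d N (∑ i, c i • t i) s) (i : Fin m) :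
    ∀ s, s + i * d ≤ D →
      Ex π d (N ⊔ ⨆ j : {j : Fin m // j < i}, LinearMap.range (t j)) (t i) s := by
  induction m generalizing N D with
  | zero => exact i.elim0
  | succ m ih =>
    have h0 : ∀ s ≤ D, Ex π d N (t 0) s := by
      intro s hs
      have h1 := h (Pi.single 0 1) (by
        intro h2
        have h3 := congrFun h2 0
        rw [Pi.single_eq_same] at h3
        exact one_ne_zero h3) s hs
      have e : ∑ j, (Pi.single 0 1 : Fin (m + 1) → K) j • t j = t 0 := by
        rw [Fin.sum_univ_succ, Pi.single_eq_same, one_smul]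
        rw [Finset.sum_eq_zero, add_zero]
        intro j _
        rw [Pi.single_eq_of_ne (Fin.succ_ne_zero j), zero_smul]
      rwa [e] at h1
    induction i using Fin.cases with
    | zero =>
      intro s hs
      have e : (N ⊔ ⨆ j : {j : Fin (m + 1) // j < 0}, LinearMap.range (t j)) = N := by
        have : IsEmpty {j : Fin (m + 1) // j < 0} := ⟨fun j => by
          have := j.2
          exact absurd this (Fin.not_lt_zero _)⟩
        rw [iSup_of_empty, sup_bot_eq]
      rw [e]
      refine h0 s ?_
      have : ((0 : Fin (m + 1)) : ℕ) = 0 := rfl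
      simpa [this] using hs
    | succ i =>
      intro s hs
      -- the sum of the ranges
      have e : (N ⊔ ⨆ j : {j : Fin (m + 1) // j < i.succ}, LinearMap.range (t j))
          = (N ⊔ LinearMap.range (t 0)) ⊔
            ⨆ j : {j : Fin m // j < i}, LinearMap.range (t (Fin.succ j)) := by
        apply le_antisymm
        · refine sup_le (le_sup_of_le_left le_sup_left) (iSup_le ?_)
          rintro ⟨j, hj⟩
          induction j using Fin.cases with
          | zero => exact le_sup_of_le_left le_sup_right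
          | succ j =>
            refine le_sup_of_le_right ?_
            exact le_iSup (fun j : {j : Fin m // j < i} => LinearMap.range (t (Fin.succ j)))
              ⟨j, Fin.succ_lt_succ_iff.mp hj⟩
        · refine sup_le (sup_le le_sup_left (le_sup_of_le_right ?_)) (le_sup_of_le_right
            (iSup_le ?_))
          · exact le_iSup (fun j : {j : Fin (m + 1) // j < i.succ} => LinearMap.range (t j))
              ⟨0, Fin.succ_pos i⟩
          · rintro ⟨j, hj⟩
            exact le_iSup (fun j : {j : Fin (m + 1) // j < i.succ} => LinearMap.range (t j))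
              ⟨j.succ, Fin.succ_lt_succ_iff.mpr hj⟩
      rw [e]
      refine ih (fun j => t j.succ) (fun j s x => ht _ s x) (fun j k x => hcomm _ _ x)
        (fun j x => hsq _ x) (N ⊔ LinearMap.range (t 0)) ?_ ?_ (D - d) ?_ i s ?_
      · intro s x hx
        obtain ⟨n, hn, w, ⟨z, rfl⟩, rfl⟩ := Submodule.mem_sup.mp hx
        rw [map_add]
        refine Submodule.add_mem_sup (hN s n hn) ⟨π (s - d) z, ?_⟩
        have h1 := ht 0 (s - d) z
        rw [sub_add_cancel] at h1
        exact h1.symm
      · intro j x hx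
        obtain ⟨n, hn, w, ⟨z, rfl⟩, rfl⟩ := Submodule.mem_sup.mp hx
        rw [map_add]
        exact Submodule.add_mem_sup (hNt _ n hn) ⟨t j.succ z, hcomm _ _ _⟩
      · intro c hc s hs
        set u : M →ₗ[K] M := ∑ j, c j • t j.succ with hu
        have hua : ∀ x, u x = ∑ j, c j • t j.succ x := by
          intro x
          rw [hu, LinearMap.sum_apply]
          rfl
        refine pair π d N hidem hN (t 0) u (fun s x => ht 0 s x) ?_ ?_ (fun x => hsq 0 x) ?_
          (hNt 0) ?_ s ?_ (h0 _ (by linarith))
        · intro s x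
          rw [hua, hua, map_sum]
          refine Finset.sum_congr rfl fun j _ => ?_
          rw [map_smul, ht]
        · intro x
          rw [hua, hua, map_sum]
          refine Finset.sum_congr rfl fun j _ => ?_
          rw [map_smul, hcomm]
        · intro x
          rw [hua]
          have h2 : (2 : K) = 0 := CharTwo.two_eq_zero
          have h3 : ∑ j, c j • t j.succ (u x)
              = ∑ j, ∑ k, (c j * c k) • t j.succ (t k.succ x) := by
            refine Finset.sum_congr rfl fun j _ => ?_
            rw [hua, map_sum, Finset.smul_sum]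
            refine Finset.sum_congr rfl fun k _ => ?_
            rw [map_smul, smul_smul]
          rw [h3, ← Fintype.sum_prod_type' (f := fun j k => (c j * c k) • t j.succ (t k.succ x))]
          refine Finset.sum_involution (fun p _ => p.swap) ?_ ?_ (fun _ _ => Finset.mem_univ _)
            (fun p _ => Prod.swap_swap p)
          · rintro ⟨j, k⟩ _
            show (c j * c k) • t j.succ (t k.succ x) + (c k * c j) • t k.succ (t j.succ x) = 0
            rw [hcomm k.succ j.succ, mul_comm (c k), ← two_smul K, h2, zero_smul]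
          · rintro ⟨j, k⟩ _ hne heq
            have hjk : k = j := congrArg Prod.fst heq
            subst hjk
            exact hne (by
              show (c k * c k) • t k.succ (t k.succ x) = 0
              rw [hsq, smul_zero])
        · intro x hx
          rw [hua]
          exact Submodule.sum_mem _ fun j _ => Submodule.smul_mem _ _ (hNt _ x hx)
        · intro a b hab
          have h1 := h (Fin.cons a (b • c)) (by
            intro h2
            have ha : a = 0 := by
              have h3 := congrFun h2 0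
              simpa using h3
            have hb : b • c = 0 := by
              funext j
              have h3 := congrFun h2 j.succ
              simpa using h3
            rcases hab with hab | hab
            · exact hab ha
            · exact (smul_ne_zero hab hc) hb) s (by linarith)
          have e2 : ∑ j, (Fin.cons a (b • c) : Fin (m + 1) → K) j • t j = a • t 0 + b • u := by
            rw [Fin.sum_univ_succ, Fin.cons_zero, hu, Finset.smul_sum]
            congr 1
            refine Finset.sum_congr rfl fun j _ => ?_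
            rw [Fin.cons_succ, Pi.smul_apply, smul_eq_mul, mul_smul]
          rwa [e2] at h1
      · have e3 : ((i.succ : Fin (m + 1)) : ℕ) = (i : ℕ) + 1 := rfl
        rw [e3] at hs
        push_cast at hs
        linarith

end H26QX
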