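import Pool.Agent.H26.QX.SqK

/-!
# Definitions for quadratic forms over a field of characteristic two
-/

namespace H26QX

open Finset

/-- pairs `i < j` -/
abbrev Pr (n : ℕ) : Type := {p : Fin n × Fin n // p.1 < p.2}

/-- the alternating matrix over `K` of the combination with coefficients `c` of the binary
quadratic forms `q a`, `a : Fin r`, given by their coefficients -/
def Q {K : Type*} [Field K] [Algebra (ZMod 2) K] {n r : ℕ} (c : Fin r → K)
    (q : Fin r → Pr n → ZMod 2) : Matrix (Fin n) (Fin n) K := fun i j =>
  if h : i < j then ∑ a, c a * algebraMap (ZMod 2) K (q a ⟨(i, j), h⟩)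
  else if h : j < i then ∑ a, c a * algebraMap (ZMod 2) K (q a ⟨(j, i), h⟩)
  else 0

/-- the alternating matrix of the quadratic part of an element of the squarefree algebra -/
def mat {K : Type*} [Field K] {σ : Type*} [DecidableEq σ] (q : SqK K σ) : Matrix σ σ K :=
  fun i j => if i = j then 0 else q {i, j}

/-- `t` is exact on `M / N` in degree `s`, for operators of degree `d`; `π s` is the projection to
the component of degree `s` -/
def Ex {K M : Type*} [Field K] [AddCommGroup M] [Module K M] (π : ℤ → M →ₗ[K] M) (d : ℤ)
    (N : Submodule K M) (t : M →ₗ[K] M) (s : ℤ) : Prop :=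
  ∀ x, π s x = x → t x ∈ N → ∃ y, π (s - d) y = y ∧ x - t y ∈ N

end H26QX
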