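import Pool.Agent.H26.QX.Sub
import Pool.Agent.H26.IX.Half

/-!
# Random tuples of quadratic forms: subfamilies
-/

namespace H26QX

open Finset H67SR Filter

/-- the condition of regularity of the member `i` over the members in `J`, in degree `s` -/
def regAt {n m : ℕ} (lam : Fin m → BB n) (J : Finset (Fin m)) (i : Fin m) (s : ℕ) : Prop :=
  ∀ ν ∈ part n s, ν * lam i ∈ Ideal.span (lam '' (J : Set (Fin m))) →
    ν ∈ Ideal.span (lam '' (insert i (J : Set (Fin m))))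

theorem map_span {n m : ℕ} (lam : Fin m → BB n) (X : Set (Fin m)) (x : BB n) :
    x ∈ Ideal.span (lam '' X) ↔
      H67SR.SqA.iso n x ∈ Ideal.span ((fun l => H67SR.SqA.iso n (lam l)) '' X) := by
  have h1 : Ideal.map (H67SR.SqA.iso n) (Ideal.span (lam '' X)) =
      Ideal.span ((fun l => H67SR.SqA.iso n (lam l)) '' X) := by
    rw [Ideal.map_span, Set.image_image]
  rw [← h1]
  constructor
  · intro h; exact Ideal.mem_map_of_mem _ h
  · intro h
    obtain ⟨y, hy, hxy⟩ := (Ideal.mem_map_of_equiv (H67SR.SqA.iso n) _).1 h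
    rwa [(H67SR.SqA.iso n).injective hxy] at hy

theorem regAt_of_rank {n m a : ℕ} (lam : Fin m → BB n) (hlam : ∀ i, lam i ∈ part n 2)
    (hrank : ∀ c : Fin m → AlgebraicClosure (ZMod 2), c ≠ 0 →
      n < (Q c (coef (fun l => H67SR.SqA.iso n (lam l)))).rank + a)
    (J : Finset (Fin m)) (i : Fin m) (hi : i ∉ J) (s : ℕ) (hs : 2 * s + 4 * J.card + a < n) :
    regAt lam J i s := by
  intro ν hν h
  rw [map_span] at h ⊢
  rw [map_mul] at h
  exact sub_semireg (fun l => H67SR.SqA.iso n (lam l))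
    (fun l => H26IX.mem_part_iff_V.1 (hlam l)) hrank J i hi s hs _
    (H26IX.mem_part_iff_V.1 hν) h

/-- the bad tuples -/
def badQ (n a : ℕ) : Set (Fin n → BB n) :=
  {lam ∈ H26IX.tups n 2 | ∃ c : Fin n → AlgebraicClosure (ZMod 2), c ≠ 0 ∧
    (Q c (coef (fun l => H67SR.SqA.iso n (lam l)))).rank + a ≤ n}

theorem coef_inj {n : ℕ} {f g : H67SR.SqA (Fin n)}
    (hf : f ∈ (H26IX.V 2 : Submodule (ZMod 2) (H67SR.SqA (Fin n))))
    (hg : g ∈ (H26IX.V 2 : Submodule (ZMod 2) (H67SR.SqA (Fin n))))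
    (h : ∀ p : Pr n, f {p.1.1, p.1.2} = g {p.1.1, p.1.2}) : f = g := by
  ext T
  by_cases hT : T.card = 2
  · obtain ⟨x, y, hxy, rfl⟩ := Finset.card_eq_two.1 hT
    rcases lt_or_gt_of_ne hxy with h1 | h1
    · exact h ⟨(x, y), h1⟩
    · have := h ⟨(y, x), h1⟩
      rw [Finset.pair_comm]
      exact this
  · have h1 : f T = 0 := by
      by_contra h'
      exact hT (hf T h')
    have h2 : g T = 0 := by
      by_contra h'
      exact hT (hg T h')
    rw [h1, h2]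

theorem ncard_badQ {n a : ℕ} (hn : 1 ≤ n) (ha : a ≤ n) (h8 : 8 * n ≤ a.choose 2) :
    ((badQ n a).ncard : ℝ) ≤ (2 : ℝ) ^ (n * n.choose 2) * (n * (1 / 2) ^ n) := by
  refine le_trans ?_ (count_bad hn ha h8)
  have h1 : (badQ n a).ncard ≤ {q : Fin n → Pr n → ZMod 2 |
      ∃ c : Fin n → AlgebraicClosure (ZMod 2), c ≠ 0 ∧ (Q c q).rank + a ≤ n}.ncard := by
    apply Set.ncard_le_ncard_of_injOn
      (fun lam : Fin n → BB n => coef (fun l => H67SR.SqA.iso n (lam l)))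
    · rintro lam ⟨_, h⟩
      exact h
    · rintro lam ⟨hl, _⟩ lam' ⟨hl', _⟩ h
      funext l
      apply (H67SR.SqA.iso n).injective
      apply coef_inj (H26IX.mem_part_iff_V.1 (hl l).1) (H26IX.mem_part_iff_V.1 (hl' l).1)
      intro p
      exact congrFun (congrFun h l) p
  exact_mod_cast h1

theorem ev_exp : ∀ᶠ n : ℕ in atTop,
    2 * ((n : ℝ) * (1 / 2) ^ n) ≤ Real.exp (-(1 / 2) * (n : ℝ)) := by
  have h1 : Tendsto (fun n : ℕ => (n : ℝ) * (9 / 10 : ℝ) ^ n) atTop (nhds 0) :=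
    tendsto_self_mul_const_pow_of_lt_one (by norm_num) (by norm_num)
  have h2 : ∀ᶠ n : ℕ in atTop, (n : ℝ) * (9 / 10 : ℝ) ^ n < 1 / 2 :=
    h1.eventually (gt_mem_nhds (by norm_num))
  filter_upwards [h2] with n hn
  have h3 : Real.exp (-(1 / 2) * (n : ℝ)) = Real.exp (-(1 / 2)) ^ n := by
    rw [← Real.exp_nat_mul]; congr 1; ring
  have h4 : (5 / 9 : ℝ) ≤ Real.exp (-(1 / 2)) := by
    rw [Real.exp_neg]
    have h5 : Real.exp (1 / 2) ≤ 9 / 5 := by
      have h6 : Real.exp (1 / 2) ^ 2 = Real.exp 1 := by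
        rw [← Real.exp_nat_mul]; congr 1; norm_num
      have h7 := Real.exp_one_lt_d9
      have h8 : Real.exp (1 / 2) ^ 2 ≤ (9 / 5) ^ 2 := by rw [h6]; linarith
      exact (pow_le_pow_iff_left₀ (Real.exp_pos _).le (by norm_num) (by norm_num)).1 h8
    rw [le_inv_comm₀ (by norm_num) (Real.exp_pos _)]
    linarith
  rw [h3]
  have h5 : (1 / 2 : ℝ) ^ n = (9 / 10) ^ n * (5 / 9) ^ n := by
    rw [← mul_pow]; norm_num
  have h6 : (5 / 9 : ℝ) ^ n ≤ Real.exp (-(1 / 2)) ^ n := pow_le_pow_left₀ (by norm_num) h4 n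
  rw [h5]
  have h7 : (0 : ℝ) ≤ (5 / 9 : ℝ) ^ n := by positivity
  calc 2 * ((n : ℝ) * ((9 / 10) ^ n * (5 / 9) ^ n))
      = (2 * ((n : ℝ) * (9 / 10) ^ n)) * (5 / 9) ^ n := by ring
    _ ≤ 1 * (5 / 9) ^ n := mul_le_mul_of_nonneg_right (by linarith) h7
    _ ≤ _ := by rw [one_mul]; exact h6

theorem ev_choose {ε : ℝ} (hε : 0 < ε) : ∀ᶠ n : ℕ in atTop, 8 * n ≤ (⌊ε * (n : ℝ)⌋₊).choose 2 := by
  obtain ⟨n0, hn0⟩ := exists_nat_gt (max (8 / ε) (64 / ε ^ 2))
  filter_upwards [eventually_ge_atTop n0] with n hn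
  have hn' : (n0 : ℝ) ≤ n := by exact_mod_cast hn
  have h1 : 8 / ε < n := lt_of_le_of_lt (le_max_left _ _) (lt_of_lt_of_le hn0 hn')
  have h2 : 64 / ε ^ 2 < n := lt_of_le_of_lt (le_max_right _ _) (lt_of_lt_of_le hn0 hn')
  rw [div_lt_iff₀ hε] at h1
  rw [div_lt_iff₀ (by positivity)] at h2
  set a := ⌊ε * (n : ℝ)⌋₊ with ha
  set x : ℝ := ε * (n : ℝ) with hx
  have hx8 : 8 < x := by rw [hx]; linarith
  have h3 : x < a + 1 := Nat.lt_floor_add_one _
  have h12 : 64 * (n : ℝ) ≤ x * x := by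
    rw [hx]
    have hn00 : (0 : ℝ) ≤ n := Nat.cast_nonneg n
    nlinarith
  have h5 : (2 : ℝ) * (8 * n) ≤ a * (a - 1) := by
    have h8 : x * (1 / 2) ≤ (a : ℝ) := by linarith
    have h10 : x * (1 / 2) ≤ (a : ℝ) - 1 := by linarith
    have h11 : (x * (1 / 2)) * (x * (1 / 2)) ≤ a * (a - 1) :=
      mul_le_mul h8 h10 (by linarith) (Nat.cast_nonneg _)
    nlinarith
  have h6 : ((a.choose 2 : ℕ) : ℝ) = a * (a - 1) / 2 := Nat.cast_choose_two ℝ a
  have h7 : ((8 * n : ℕ) : ℝ) ≤ ((a.choose 2 : ℕ) : ℝ) := by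
    rw [h6]
    push_cast
    linarith
  exact_mod_cast h7

/-- semi-regularity of all subfamilies up to total degree `(1/2 - ε) n` -/
theorem subA {ε : ℝ} (hε : 0 < ε) :
    ∃ c : ℝ, 0 < c ∧ ∀ᶠ n : ℕ in atTop,
      0 < (H26IX.tups n 2).ncard ∧
      1 - Real.exp (-c * n) ≤
      (({lam ∈ H26IX.tups n 2 | ∀ (J : Finset (Fin n)) (i : Fin n) (s : ℕ), i ∉ J →
        (s : ℝ) + 2 * J.card ≤ (1 / 2 - ε) * n → regAt lam J i s} :
          Set (Fin n → BB n)).ncard : ℝ) /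
        ((H26IX.tups n 2).ncard : ℝ) := by
  refine ⟨1 / 2, by norm_num, ?_⟩
  by_cases hε1 : 1 < ε
  · -- the range is empty
    filter_upwards [eventually_ge_atTop 4] with n hn
    have hn0 : (0 : ℝ) < n := by
      have : 0 < n := by omega
      exact_mod_cast this
    set M : ℝ := (2 : ℝ) ^ n.choose 2 with hM
    have hMn : 2 * (n : ℝ) ≤ M := by
      have h1 : 2 * n ≤ 2 ^ n.choose 2 :=
        (H26IX.two_mul_le_two_pow (by omega)).trans
          (Nat.pow_le_pow_right (by norm_num) (H26IX.le_choose (by norm_num) (by omega)))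
      rw [hM]
      exact_mod_cast h1
    have hM1 : 1 ≤ M := by
      have : (1 : ℝ) ≤ n := by
        have : 1 ≤ n := by omega
        exact_mod_cast this
      linarith
    have htot : M ^ n / 2 ≤ (H26IX.tups n 2).ncard :=
      (H26IX.pow_pred_ge hMn hM1).trans H26IX.ncard_tups_ge
    have htot0 : (0 : ℝ) < (H26IX.tups n 2).ncard := lt_of_lt_of_le (by positivity) htot
    refine ⟨by exact_mod_cast htot0, ?_⟩
    have h1 : {lam ∈ H26IX.tups n 2 | ∀ (J : Finset (Fin n)) (i : Fin n) (s : ℕ), i ∉ J →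
        (s : ℝ) + 2 * J.card ≤ (1 / 2 - ε) * n → regAt lam J i s} = H26IX.tups n 2 := by
      ext lam
      refine ⟨fun h => h.1, fun h => ⟨h, fun J i s _ hs => ?_⟩⟩
      exfalso
      have h2 : (0 : ℝ) ≤ s := Nat.cast_nonneg _
      have h3 : (0 : ℝ) ≤ J.card := Nat.cast_nonneg _
      nlinarith
    rw [h1, div_self htot0.ne']
    have := Real.exp_pos (-(1 / 2) * (n : ℝ))
    linarith
  push Not at hε1
  filter_upwards [ev_exp, ev_choose hε, eventually_ge_atTop 4] with n hexp hch hn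
  have hn1 : 1 ≤ n := by omega
  have hn0 : (0 : ℝ) < n := by exact_mod_cast hn1
  set a := ⌊ε * (n : ℝ)⌋₊ with ha
  have haε : (a : ℝ) ≤ ε * n := Nat.floor_le (by positivity)
  have han : a ≤ n := by
    have : (a : ℝ) ≤ n := by nlinarith
    exact_mod_cast this
  have hbad := ncard_badQ hn1 han hch
  set M : ℝ := (2 : ℝ) ^ n.choose 2 with hM
  have hMn : 2 * (n : ℝ) ≤ M := by
    have h1 : 2 * n ≤ 2 ^ n.choose 2 :=
      (H26IX.two_mul_le_two_pow hn1).trans
        (Nat.pow_le_pow_right (by norm_num) (H26IX.le_choose (by norm_num) (by omega)))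
    rw [hM]
    exact_mod_cast h1
  have hM1 : 1 ≤ M := by
    have : (1 : ℝ) ≤ n := by exact_mod_cast hn1
    linarith
  have htot : M ^ n / 2 ≤ (H26IX.tups n 2).ncard :=
    (H26IX.pow_pred_ge hMn hM1).trans H26IX.ncard_tups_ge
  have htot0 : (0 : ℝ) < (H26IX.tups n 2).ncard := lt_of_lt_of_le (by positivity) htot
  refine ⟨by exact_mod_cast htot0, ?_⟩
  set good : Set (Fin n → BB n) := {lam ∈ H26IX.tups n 2 |
      ∀ (J : Finset (Fin n)) (i : Fin n) (s : ℕ), i ∉ J →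
        (s : ℝ) + 2 * J.card ≤ (1 / 2 - ε) * n → regAt lam J i s} with hgood
  haveI : Finite (BB n) := Finite.of_equiv _ (H67SR.SqA.iso n).symm.toEquiv
  have hsub : H26IX.tups n 2 ⊆ good ∪ badQ n a := by
    intro lam hl
    by_cases h : ∃ c : Fin n → AlgebraicClosure (ZMod 2), c ≠ 0 ∧
        (Q c (coef (fun l => H67SR.SqA.iso n (lam l)))).rank + a ≤ n
    · right; exact ⟨hl, h⟩
    · left
      refine ⟨hl, fun J i s hi hs => ?_⟩
      apply regAt_of_rank (a := a) lam (fun l => (hl l).1) _ J i hi s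
      · have h1 : (2 * (s : ℝ) + 4 * J.card + a) < n := by nlinarith
        exact_mod_cast h1
      · intro c hc
        by_contra h2
        exact h ⟨c, hc, by omega⟩
  have hcard : ((H26IX.tups n 2).ncard : ℝ) ≤ (good.ncard : ℝ) + ((badQ n a).ncard : ℝ) := by
    have h1 := (Set.ncard_le_ncard hsub (Set.toFinite _)).trans
      (Set.ncard_union_le good (badQ n a))
    exact_mod_cast h1
  have hbad3 : ((badQ n a).ncard : ℝ) ≤
      Real.exp (-(1 / 2) * n) * (H26IX.tups n 2).ncard := by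
    have h1 : (2 : ℝ) ^ (n * n.choose 2) = M ^ n := by
      rw [hM, ← pow_mul, mul_comm]
    rw [h1] at hbad
    calc ((badQ n a).ncard : ℝ) ≤ M ^ n * (n * (1 / 2) ^ n) := hbad
      _ ≤ (2 * (H26IX.tups n 2).ncard) * (n * (1 / 2) ^ n) := by
          apply mul_le_mul_of_nonneg_right _ (by positivity)
          linarith
      _ = (2 * ((n : ℝ) * (1 / 2) ^ n)) * (H26IX.tups n 2).ncard := by ring
      _ ≤ _ := mul_le_mul_of_nonneg_right hexp htot0.le
  rw [le_div_iff₀ htot0]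
  have h1 : (1 - Real.exp (-(1 / 2) * n)) * ((H26IX.tups n 2).ncard : ℝ) =
      (H26IX.tups n 2).ncard - Real.exp (-(1 / 2) * n) * (H26IX.tups n 2).ncard := by ring
  rw [h1]
  linarith

end H26QX
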