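import Pool.Agent.H26.QX.Fin

/-!
# Random tuples of quadratic forms: the semi-regularity condition for small subfamilies
-/

namespace H26QX

open Finset H67SR Filter

/-- two properties, each true for a fraction `≥ 1 - exp (-c n)` of the tuples, hold together -/
theorem both {P Q' : ∀ n : ℕ, (Fin n → BB n) → Prop} {a b : ℝ} (ha : 0 < a) (hb : 0 < b)
    (hP : ∀ᶠ n : ℕ in atTop, 0 < (H26IX.tups n 2).ncard ∧ 1 - Real.exp (-a * n) ≤
      (({lam ∈ H26IX.tups n 2 | P n lam} : Set (Fin n → BB n)).ncard : ℝ) /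
        ((H26IX.tups n 2).ncard : ℝ))
    (hQ : ∀ᶠ n : ℕ in atTop, 0 < (H26IX.tups n 2).ncard ∧ 1 - Real.exp (-b * n) ≤
      (({lam ∈ H26IX.tups n 2 | Q' n lam} : Set (Fin n → BB n)).ncard : ℝ) /
        ((H26IX.tups n 2).ncard : ℝ)) :
    ∃ c : ℝ, 0 < c ∧ ∀ᶠ n : ℕ in atTop, 0 < (H26IX.tups n 2).ncard ∧ 1 - Real.exp (-c * n) ≤
      (({lam ∈ H26IX.tups n 2 | P n lam ∧ Q' n lam} : Set (Fin n → BB n)).ncard : ℝ) /
        ((H26IX.tups n 2).ncard : ℝ) := by
  set m := min a b with hm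
  have hm0 : 0 < m := lt_min ha hb
  refine ⟨m / 2, by positivity, ?_⟩
  obtain ⟨n0, hn0⟩ := exists_nat_gt (2 * Real.log 2 / m)
  filter_upwards [hP, hQ, eventually_ge_atTop n0] with n h1 h2 hn
  refine ⟨h1.1, ?_⟩
  haveI : Finite (BB n) := Finite.of_equiv _ (H67SR.SqA.iso n).symm.toEquiv
  set T := (H26IX.tups n 2) with hT
  have hT0 : (0 : ℝ) < (T.ncard : ℝ) := by exact_mod_cast h1.1
  have h3 : T.ncard + {lam ∈ T | P n lam ∧ Q' n lam}.ncard ≥
      {lam ∈ T | P n lam}.ncard + {lam ∈ T | Q' n lam}.ncard := by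
    have h4 := Set.ncard_union_add_ncard_inter {lam ∈ T | P n lam} {lam ∈ T | Q' n lam}
      (Set.toFinite _) (Set.toFinite _)
    have h5 : ({lam ∈ T | P n lam} ∪ {lam ∈ T | Q' n lam}).ncard ≤ T.ncard :=
      Set.ncard_le_ncard (by rintro x (hx | hx) <;> exact hx.1) (Set.toFinite _)
    have h6 : ({lam ∈ T | P n lam} ∩ {lam ∈ T | Q' n lam}) =
        {lam ∈ T | P n lam ∧ Q' n lam} := by
      ext x
      constructor
      · rintro ⟨⟨h, h'⟩, ⟨_, h''⟩⟩; exact ⟨h, h', h''⟩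
      · rintro ⟨h, h', h''⟩; exact ⟨⟨h, h'⟩, ⟨h, h''⟩⟩
    rw [h6] at h4
    omega
  have h3' : ({lam ∈ T | P n lam}.ncard : ℝ) + ({lam ∈ T | Q' n lam}.ncard : ℝ) ≤
      (T.ncard : ℝ) + ({lam ∈ T | P n lam ∧ Q' n lam}.ncard : ℝ) := by exact_mod_cast h3
  have h7 := h1.2
  have h8 := h2.2
  rw [le_div_iff₀ hT0] at h7 h8 ⊢
  have hn' : (n0 : ℝ) ≤ n := by exact_mod_cast hn
  have h9 : 2 * Real.log 2 / m < n := lt_of_lt_of_le hn0 hn'
  rw [div_lt_iff₀ hm0] at h9
  have hnn : (0 : ℝ) ≤ n := Nat.cast_nonneg n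
  have h10 : Real.exp (-a * n) ≤ Real.exp (-m * n) := by
    apply Real.exp_le_exp.2
    have : m ≤ a := min_le_left _ _
    nlinarith
  have h11 : Real.exp (-b * n) ≤ Real.exp (-m * n) := by
    apply Real.exp_le_exp.2
    have : m ≤ b := min_le_right _ _
    nlinarith
  have h12 : 2 * Real.exp (-m * n) ≤ Real.exp (-(m / 2) * n) := by
    have h2' : (2 : ℝ) = Real.exp (Real.log 2) := (Real.exp_log (by norm_num)).symm
    calc 2 * Real.exp (-m * n) = Real.exp (Real.log 2) * Real.exp (-m * n) := by rw [← h2']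
      _ = Real.exp (Real.log 2 + -m * n) := by rw [Real.exp_add]
      _ ≤ Real.exp (-(m / 2) * n) := by
        apply Real.exp_le_exp.2
        linarith
  nlinarith

/-- the semi-regularity condition in all the degrees that matter, for subfamilies of at most
`n / 257` members -/
theorem subB :
    ∃ c : ℝ, 0 < c ∧ ∀ᶠ n : ℕ in atTop,
      0 < (H26IX.tups n 2).ncard ∧
      1 - Real.exp (-c * n) ≤
      (({lam ∈ H26IX.tups n 2 | ∀ (J : Finset (Fin n)) (i : Fin n) (s : ℕ), i ∉ J →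
        257 * J.card ≤ n →
        s + 2 < sInf {D | part n D ⊆ (Ideal.span (Set.range lam) : Set (BB n))} →
        regAt lam J i s} :
          Set (Fin n → BB n)).ncard : ℝ) /
        ((H26IX.tups n 2).ncard : ℝ) := by
  obtain ⟨a, ha, hA⟩ := subA (ε := 1 / 32896) (by norm_num)
  obtain ⟨b, hb, hB⟩ := H26IX.ind_half (d := 2) (by norm_num)
  obtain ⟨c, hc, hC⟩ := both ha hb hA hB
  refine ⟨c, hc, ?_⟩
  filter_upwards [hC] with n hn
  refine ⟨hn.1, hn.2.trans ?_⟩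
  haveI : Finite (BB n) := Finite.of_equiv _ (H67SR.SqA.iso n).symm.toEquiv
  apply div_le_div_of_nonneg_right _ (Nat.cast_nonneg _)
  have h : ({lam ∈ H26IX.tups n 2 |
      (∀ (J : Finset (Fin n)) (i : Fin n) (s : ℕ), i ∉ J →
        (s : ℝ) + 2 * J.card ≤ (1 / 2 - 1 / 32896) * n → regAt lam J i s) ∧
      ((sInf {D | part n D ⊆ (Ideal.span (Set.range lam) : Set (BB n))} : ℕ) : ℝ) ≤
          (1 / 2 - (1 / 2) ^ 2 / 32) * (n : ℝ)} : Set (Fin n → BB n)).ncard ≤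
      ({lam ∈ H26IX.tups n 2 | ∀ (J : Finset (Fin n)) (i : Fin n) (s : ℕ), i ∉ J →
        257 * J.card ≤ n →
        s + 2 < sInf {D | part n D ⊆ (Ideal.span (Set.range lam) : Set (BB n))} →
        regAt lam J i s} : Set (Fin n → BB n)).ncard := by
    apply Set.ncard_le_ncard _ (Set.toFinite _)
    rintro lam ⟨hl, hreg, hind⟩
    refine ⟨hl, fun J i s hi hJ hs => hreg J i s hi ?_⟩
    have h1 : ((s + 2 : ℕ) : ℝ) <
        ((sInf {D | part n D ⊆ (Ideal.span (Set.range lam) : Set (BB n))} : ℕ) : ℝ) := by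
      exact_mod_cast hs
    have h2 : (257 : ℝ) * J.card ≤ n := by exact_mod_cast hJ
    push_cast at h1
    norm_num at hind ⊢
    linarith
  exact_mod_cast h

end H26QX
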