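import Pool.Agent.H26.QX.FinB
import Pool.Agent.H26.IX.HalfGen

/-!
# The semi-regularity condition for small subfamilies, from an upper bound for the index
-/

namespace H26QX

open Finset H67SR Filter

/-- the semi-regularity condition in all the degrees that matter, for subfamilies of at most
`n / q` members, if the index is at most `(1 - p) n` for most tuples and `1 / 2 + 2 / q < p` -/
theorem subB_of {p : ℝ} {q : ℕ} (hq : 0 < q) (hpq : 1 / 2 + 2 / (q : ℝ) < p)
    (hind : ∃ c : ℝ, 0 < c ∧ ∀ᶠ n : ℕ in atTop,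
      0 < (H26IX.tups n 2).ncard ∧
      1 - Real.exp (-c * n) ≤
      (({lam ∈ H26IX.tups n 2 |
        ((sInf {D | part n D ⊆ (Ideal.span (Set.range lam) : Set (BB n))} : ℕ) : ℝ) ≤
          (1 - p) * (n : ℝ)} : Set (Fin n → BB n)).ncard : ℝ) /
        ((H26IX.tups n 2).ncard : ℝ)) :
    ∃ c : ℝ, 0 < c ∧ ∀ᶠ n : ℕ in atTop,
      0 < (H26IX.tups n 2).ncard ∧
      1 - Real.exp (-c * n) ≤
      (({lam ∈ H26IX.tups n 2 | ∀ (J : Finset (Fin n)) (i : Fin n) (s : ℕ), i ∉ J →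
        q * J.card ≤ n →
        s + 2 < sInf {D | part n D ⊆ (Ideal.span (Set.range lam) : Set (BB n))} →
        regAt lam J i s} :
          Set (Fin n → BB n)).ncard : ℝ) /
        ((H26IX.tups n 2).ncard : ℝ) := by
  have hq0 : (0 : ℝ) < q := by exact_mod_cast hq
  obtain ⟨a, ha, hA⟩ := subA (ε := p - 1 / 2 - 2 / (q : ℝ)) (by linarith)
  obtain ⟨b, hb, hB⟩ := hind
  obtain ⟨c, hc, hC⟩ := both ha hb hA hB
  refine ⟨c, hc, ?_⟩
  filter_upwards [hC] with n hn
  refine ⟨hn.1, hn.2.trans ?_⟩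
  haveI : Finite (BB n) := Finite.of_equiv _ (H67SR.SqA.iso n).symm.toEquiv
  apply div_le_div_of_nonneg_right _ (Nat.cast_nonneg _)
  have h : ({lam ∈ H26IX.tups n 2 |
      (∀ (J : Finset (Fin n)) (i : Fin n) (s : ℕ), i ∉ J →
        (s : ℝ) + 2 * J.card ≤ (1 / 2 - (p - 1 / 2 - 2 / (q : ℝ))) * n → regAt lam J i s) ∧
      ((sInf {D | part n D ⊆ (Ideal.span (Set.range lam) : Set (BB n))} : ℕ) : ℝ) ≤
          (1 - p) * (n : ℝ)} : Set (Fin n → BB n)).ncard ≤
      ({lam ∈ H26IX.tups n 2 | ∀ (J : Finset (Fin n)) (i : Fin n) (s : ℕ), i ∉ J →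
        q * J.card ≤ n →
        s + 2 < sInf {D | part n D ⊆ (Ideal.span (Set.range lam) : Set (BB n))} →
        regAt lam J i s} : Set (Fin n → BB n)).ncard := by
    apply Set.ncard_le_ncard _ (Set.toFinite _)
    rintro lam ⟨hl, hreg, hi'⟩
    refine ⟨hl, fun J i s hi hJ hs => hreg J i s hi ?_⟩
    have h1 : ((s + 2 : ℕ) : ℝ) <
        ((sInf {D | part n D ⊆ (Ideal.span (Set.range lam) : Set (BB n))} : ℕ) : ℝ) := by
      exact_mod_cast hs
    have h2 : (q : ℝ) * J.card ≤ n := by exact_mod_cast hJ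
    have h3 : 2 * (J.card : ℝ) ≤ 2 / (q : ℝ) * n := by
      rw [div_mul_eq_mul_div, le_div_iff₀ hq0]
      linarith
    push_cast at h1
    have h4 : (1 / 2 - (p - 1 / 2 - 2 / (q : ℝ))) * (n : ℝ) =
        (1 - p) * n + 2 / (q : ℝ) * n := by ring
    rw [h4]
    linarith
  exact_mod_cast h

end H26QX
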