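import Pool.Agent.H26.QX.Fin
import Pool.Agent.H26.IX.Lower

/-!
# Random tuples of quadratic forms: an explicit form of the theorem on subfamilies
-/

namespace H26QX

open Finset H67SR Filter

theorem exists_param {n : ℕ} (hn : 1 ≤ n) : ∃ a : ℕ, 8 * n ≤ a.choose 2 ∧
    (a : ℝ) < 6 * Real.sqrt n := by
  have h1 : (1 : ℝ) ≤ Real.sqrt n := by
    rw [Real.one_le_sqrt]
    exact_mod_cast hn
  refine ⟨⌈4 * Real.sqrt n⌉₊ + 1, ?_, ?_⟩
  · have h2 : 4 * Real.sqrt n ≤ (⌈4 * Real.sqrt n⌉₊ : ℝ) := Nat.le_ceil _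
    set b := ⌈4 * Real.sqrt n⌉₊ with hb
    have h3 : (((b + 1).choose 2 : ℕ) : ℝ) = ((b + 1 : ℕ) : ℝ) * (((b + 1 : ℕ) : ℝ) - 1) / 2 :=
      Nat.cast_choose_two ℝ (b + 1)
    have h4 : Real.sqrt n * Real.sqrt n = n := Real.mul_self_sqrt (Nat.cast_nonneg _)
    have h5 : ((8 * n : ℕ) : ℝ) ≤ (((b + 1).choose 2 : ℕ) : ℝ) := by
      rw [h3]
      push_cast
      nlinarith
    exact_mod_cast h5
  · have h2 : (⌈4 * Real.sqrt n⌉₊ : ℝ) < 4 * Real.sqrt n + 1 :=
      Nat.ceil_lt_add_one (by positivity)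
    push_cast
    linarith

theorem tups_pos {n : ℕ} (hn : 2 ≤ n) : 0 < (H26IX.tups n 2).ncard := by
  haveI : Finite (BB n) := Finite.of_equiv _ (H67SR.SqA.iso n).symm.toEquiv
  rw [Set.ncard_pos (Set.toFinite _)]
  have h1 : ∃ x ∈ part n 2, x ≠ 0 := by
    have h2 : (H67SR.SqA.mono ({⟨0, by omega⟩, ⟨1, by omega⟩} : Finset (Fin n)) :
        H67SR.SqA (Fin n)) ∈ (H26IX.V 2 : Submodule (ZMod 2) (H67SR.SqA (Fin n))) := by
      have h3 := H26IX.mono_mem_V ({⟨0, by omega⟩, ⟨1, by omega⟩} : Finset (Fin n))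
      rwa [Finset.card_pair (by simp [Fin.ext_iff])] at h3
    refine ⟨(H67SR.SqA.iso n).symm (H67SR.SqA.mono
      ({⟨0, by omega⟩, ⟨1, by omega⟩} : Finset (Fin n))), ?_, ?_⟩
    · rw [H26IX.mem_part_iff_V, RingEquiv.apply_symm_apply]
      exact h2
    · intro h
      rw [map_eq_zero_iff _ (RingEquiv.injective _)] at h
      have h4 := congrFun h ({⟨0, by omega⟩, ⟨1, by omega⟩} : Finset (Fin n))
      have h5 : (H67SR.SqA.mono ({⟨0, by omega⟩, ⟨1, by omega⟩} : Finset (Fin n)) :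
        H67SR.SqA (Fin n)) ({⟨0, by omega⟩, ⟨1, by omega⟩} : Finset (Fin n)) = 1 := by
        rw [H67SR.SqA.mono_apply, if_pos rfl]
      rw [h5] at h4
      exact one_ne_zero h4
  obtain ⟨x, hx, hx0⟩ := h1
  exact ⟨fun _ => x, fun _ => ⟨hx, hx0⟩⟩

/-- the condition of semi-regularity for all subfamilies up to total degree `n/2 - 3 √n` -/
theorem subA' {n : ℕ} (hn2 : 2 ≤ n) :
    0 < (H26IX.tups n 2).ncard ∧
      1 - 2 * (n : ℝ) / 2 ^ n ≤
      (({lam ∈ H26IX.tups n 2 | ∀ (J : Finset (Fin n)) (i : Fin n) (s : ℕ), i ∉ J →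
        (s : ℝ) + 2 * J.card ≤ n / 2 - 3 * Real.sqrt n → regAt lam J i s} :
          Set (Fin n → BB n)).ncard : ℝ) /
        ((H26IX.tups n 2).ncard : ℝ) := by
  have hpos := tups_pos hn2
  have htot0 : (0 : ℝ) < (H26IX.tups n 2).ncard := by exact_mod_cast hpos
  refine ⟨hpos, ?_⟩
  have hn1 : 1 ≤ n := by omega
  have hn0 : (0 : ℝ) < n := by exact_mod_cast hn1
  obtain ⟨a, ha8, ha6⟩ := exists_param hn1
  by_cases han : ¬ a ≤ n
  · -- the range is empty
    have h0 : (n : ℝ) < a := by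
      have : n < a := by omega
      exact_mod_cast this
    have h1 : {lam ∈ H26IX.tups n 2 | ∀ (J : Finset (Fin n)) (i : Fin n) (s : ℕ), i ∉ J →
        (s : ℝ) + 2 * J.card ≤ n / 2 - 3 * Real.sqrt n → regAt lam J i s} = H26IX.tups n 2 := by
      ext lam
      refine ⟨fun h => h.1, fun h => ⟨h, fun J i s _ hs => ?_⟩⟩
      exfalso
      have h2 : (0 : ℝ) ≤ s := Nat.cast_nonneg _
      have h3 : (0 : ℝ) ≤ J.card := Nat.cast_nonneg _
      linarith
    rw [h1, div_self htot0.ne']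
    have : 0 ≤ 2 * (n : ℝ) / 2 ^ n := by positivity
    linarith
  push Not at han
  have hn4 : 4 ≤ n := by
    by_contra h
    have h1 : n ≤ 3 := by omega
    have h2 : a.choose 2 ≤ (3 : ℕ).choose 2 := Nat.choose_le_choose 2 (han.trans h1)
    have h3 : (3 : ℕ).choose 2 = 3 := rfl
    omega
  have hbad := ncard_badQ hn1 han ha8
  set M : ℝ := (2 : ℝ) ^ n.choose 2 with hM
  have hMn : 2 * (n : ℝ) ≤ M := by
    have h1 : 2 * n ≤ 2 ^ n.choose 2 :=
      (H26IX.two_mul_le_two_pow hn1).trans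
        (Nat.pow_le_pow_right (by norm_num) (H26IX.le_choose (by norm_num) (by omega)))
    rw [hM]
    exact_mod_cast h1
  have hM1 : 1 ≤ M := by
    have : (1 : ℝ) ≤ n := by exact_mod_cast hn1
    linarith
  have htot : M ^ n / 2 ≤ (H26IX.tups n 2).ncard :=
    (H26IX.pow_pred_ge hMn hM1).trans H26IX.ncard_tups_ge
  set good : Set (Fin n → BB n) := {lam ∈ H26IX.tups n 2 |
      ∀ (J : Finset (Fin n)) (i : Fin n) (s : ℕ), i ∉ J →
        (s : ℝ) + 2 * J.card ≤ n / 2 - 3 * Real.sqrt n → regAt lam J i s} with hgood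
  haveI : Finite (BB n) := Finite.of_equiv _ (H67SR.SqA.iso n).symm.toEquiv
  have hsub : H26IX.tups n 2 ⊆ good ∪ badQ n a := by
    intro lam hl
    by_cases h : ∃ c : Fin n → AlgebraicClosure (ZMod 2), c ≠ 0 ∧
        (Q c (coef (fun l => H67SR.SqA.iso n (lam l)))).rank + a ≤ n
    · right; exact ⟨hl, h⟩
    · left
      refine ⟨hl, fun J i s hi hs => ?_⟩
      apply regAt_of_rank (a := a) lam (fun l => (hl l).1) _ J i hi s
      · have h1 : (2 * (s : ℝ) + 4 * J.card + a) < n := by linarith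
        exact_mod_cast h1
      · intro c hc
        by_contra h2
        exact h ⟨c, hc, by omega⟩
  have hcard : ((H26IX.tups n 2).ncard : ℝ) ≤ (good.ncard : ℝ) + ((badQ n a).ncard : ℝ) := by
    have h1 := (Set.ncard_le_ncard hsub (Set.toFinite _)).trans
      (Set.ncard_union_le good (badQ n a))
    exact_mod_cast h1
  have hbad3 : ((badQ n a).ncard : ℝ) ≤
      (2 * (n : ℝ) / 2 ^ n) * (H26IX.tups n 2).ncard := by
    have h1 : (2 : ℝ) ^ (n * n.choose 2) = M ^ n := by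
      rw [hM, ← pow_mul, mul_comm]
    rw [h1] at hbad
    calc ((badQ n a).ncard : ℝ) ≤ M ^ n * (n * (1 / 2) ^ n) := hbad
      _ ≤ (2 * (H26IX.tups n 2).ncard) * (n * (1 / 2) ^ n) := by
          apply mul_le_mul_of_nonneg_right _ (by positivity)
          linarith
      _ = (2 * (n : ℝ) / 2 ^ n) * (H26IX.tups n 2).ncard := by
          rw [one_div, inv_pow]
          ring
  rw [le_div_iff₀ htot0]
  have h1 : (1 - 2 * (n : ℝ) / 2 ^ n) * ((H26IX.tups n 2).ncard : ℝ) =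
      (H26IX.tups n 2).ncard - (2 * (n : ℝ) / 2 ^ n) * (H26IX.tups n 2).ncard := by ring
  rw [h1]
  linarith

end H26QX
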