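import Pool.Agent.H26.QX.Defs

/-!
# Counting the tuples of binary alternating matrices with a combination of low rank
-/

namespace H26QX

open Finset

/-- the principal submatrix on `P` -/
abbrev pri {K : Type*} {n : ℕ} (A : Matrix (Fin n) (Fin n) K) (P : Finset (Fin n)) : Matrix P P K :=
  A.submatrix (fun p : P => (p : Fin n)) (fun p : P => (p : Fin n))

/-- a symmetric matrix has a nonsingular principal submatrix, by which all entries are determined -/
theorem principal {K : Type*} [Field K] {n : ℕ} (A : Matrix (Fin n) (Fin n) K) (hA : ∀ i j, A i j = A j i) :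
    ∃ P : Finset (Fin n), P.card ≤ A.rank ∧ (pri A P).det ≠ 0 ∧
      ∀ i j, (pri A P).det * A i j = ∑ s : P, ∑ t : P, A i s * (pri A P).adjugate s t * A t j := by
  classical
  obtain ⟨b, -, -, hspan, hli⟩ := exists_linearIndepOn_extension (K := K) (v := fun i => A i)
    (linearIndepOn_empty K _) (Set.empty_subset Set.univ)
  obtain ⟨P, hP⟩ : ∃ P : Finset (Fin n), ∀ i, i ∈ P ↔ i ∈ b := ⟨b.toFinset, by simp⟩
  have hli' : LinearIndependent K (fun p : P => A p) :=
    LinearIndependent.comp hli (fun p : P => (⟨p, (hP _).1 p.2⟩ : b)) (by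
      intro p q h
      exact Subtype.ext (congrArg (fun x : b => (x : Fin n)) h))
  have hspan' : ∀ i, ∃ c : P → K, ∑ p, c p • A p = A i := by
    intro i
    rw [← Submodule.mem_span_range_iff_exists_fun]
    have h1 := hspan (Set.mem_image_of_mem _ (Set.mem_univ i))
    refine Submodule.span_mono ?_ h1
    rintro _ ⟨j, hj, rfl⟩
    exact ⟨⟨j, (hP j).2 hj⟩, rfl⟩
  choose C hC using hspan'
  have hC' : ∀ i j, A i j = ∑ p : P, C i p * A p j := by
    intro i j
    have h1 := congrFun (hC i) j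
    rw [← h1, Finset.sum_apply]
    rfl
  refine ⟨P, ?_, ?_, ?_⟩
  · rw [Matrix.rank_eq_finrank_span_row, ← Fintype.card_coe, ← finrank_span_eq_card hli']
    refine Submodule.finrank_mono (Submodule.span_mono ?_)
    rintro _ ⟨p, rfl⟩
    exact ⟨p, rfl⟩
  · intro hdet
    obtain ⟨v, hv, hv0⟩ := Matrix.exists_vecMul_eq_zero_iff.2 hdet
    apply hv
    have h1 : ∑ p : P, v p • A p = 0 := by
      funext j
      rw [Finset.sum_apply]
      have h2 : ∀ p : P, (v p • A p) j = ∑ p' : P, v p * A p p' * C j p' := by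
        intro p
        show v p * A p j = _
        rw [hA p j, hC' j p, Finset.mul_sum]
        refine sum_congr rfl fun p' _ => ?_
        rw [hA p' p]
        ring
      rw [sum_congr rfl fun p _ => h2 p, sum_comm]
      refine sum_eq_zero fun p' _ => ?_
      rw [← Finset.sum_mul]
      have h3 := congrFun hv0 p'
      have h4 : ∑ p : P, v p * A p p' = 0 := h3
      rw [h4, zero_mul]
    exact funext fun p => Fintype.linearIndependent_iff.1 hli' v h1 p
  · intro i j
    have h1 : ∀ t : P, ∑ s : P, A i s * (pri A P).adjugate s t = (pri A P).det * C i t := by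
      intro t
      have h2 : ∀ s : P, A i s = Matrix.vecMul (C i) (pri A P) s := fun s => hC' i s
      have h3 : ∑ s : P, A i s * (pri A P).adjugate s t =
          Matrix.vecMul (Matrix.vecMul (C i) (pri A P)) (pri A P).adjugate t := by
        unfold Matrix.vecMul
        simp only [dotProduct]
        refine sum_congr rfl fun s _ => ?_
        rw [h2 s]
        rfl
      rw [h3, Matrix.vecMul_vecMul, Matrix.mul_adjugate, Matrix.vecMul_smul, Matrix.vecMul_one]
      rfl
    rw [sum_comm]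
    have h5 : ∀ t : P, ∑ s : P, A i s * (pri A P).adjugate s t * A t j = (pri A P).det * (C i t * A t j) := by
      intro t
      rw [← Finset.sum_mul, h1 t]
      ring
    rw [sum_congr rfl fun t _ => h5 t, ← Finset.mul_sum, ← hC' i j]

/-! ### Polynomials -/

/-- the matrix of the generic combination -/
noncomputable def QX (K : Type*) [Field K] [Algebra (ZMod 2) K] {n r : ℕ} (q : Fin r → Pr n → ZMod 2) :
    Matrix (Fin n) (Fin n) (MvPolynomial (Fin r) K) := fun i j =>
  if h : i < j then ∑ a, MvPolynomial.X a * MvPolynomial.C (algebraMap (ZMod 2) K (q a ⟨(i, j), h⟩))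
  else if h : j < i then ∑ a, MvPolynomial.X a * MvPolynomial.C (algebraMap (ZMod 2) K (q a ⟨(j, i), h⟩))
  else 0

theorem eval_QX {K : Type*} [Field K] [Algebra (ZMod 2) K] {n r : ℕ} (c : Fin r → K)
    (q : Fin r → Pr n → ZMod 2) (i j : Fin n) : MvPolynomial.eval c (QX K q i j) = Q c q i j := by
  unfold QX Q
  split_ifs <;> simp

theorem totalDegree_lin {K : Type*} [Field K] {r : ℕ} (g : Fin r → K) :
    (∑ a, MvPolynomial.X a * MvPolynomial.C (g a) : MvPolynomial (Fin r) K).totalDegree ≤ 1 := by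
  refine MvPolynomial.totalDegree_finsetSum_le fun a _ => ?_
  refine (MvPolynomial.totalDegree_mul _ _).trans ?_
  rw [MvPolynomial.totalDegree_X, MvPolynomial.totalDegree_C]

theorem totalDegree_QX {K : Type*} [Field K] [Algebra (ZMod 2) K] {n r : ℕ}
    (q : Fin r → Pr n → ZMod 2) (i j : Fin n) : (QX K q i j).totalDegree ≤ 1 := by
  unfold QX
  split_ifs
  · exact totalDegree_lin _
  · exact totalDegree_lin _
  · simp

theorem totalDegree_det {K : Type*} [Field K] {r : ℕ} {ι : Type*} [Fintype ι] [DecidableEq ι]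
    (M : Matrix ι ι (MvPolynomial (Fin r) K)) (h : ∀ i j, (M i j).totalDegree ≤ 1) :
    M.det.totalDegree ≤ Fintype.card ι := by
  rw [Matrix.det_apply']
  refine MvPolynomial.totalDegree_finsetSum_le fun σ _ => ?_
  refine (MvPolynomial.totalDegree_mul _ _).trans ?_
  have h1 : (((Equiv.Perm.sign σ : ℤˣ) : ℤ) : MvPolynomial (Fin r) K).totalDegree = 0 := by
    rcases Int.units_eq_one_or (Equiv.Perm.sign σ) with h | h <;> rw [h] <;> simp
  have h2 : (∏ i, M (σ i) i).totalDegree ≤ Fintype.card ι := by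
    refine (MvPolynomial.totalDegree_finsetProd _ _).trans ?_
    refine (sum_le_sum fun i _ => h (σ i) i).trans ?_
    simp
  omega

theorem totalDegree_adjugate {K : Type*} [Field K] {r : ℕ} {ι : Type*} [Fintype ι] [DecidableEq ι]
    (M : Matrix ι ι (MvPolynomial (Fin r) K)) (h : ∀ i j, (M i j).totalDegree ≤ 1) (i j : ι) :
    (M.adjugate i j).totalDegree ≤ Fintype.card ι := by
  rw [Matrix.adjugate_apply]
  refine totalDegree_det _ fun i' j' => ?_
  rw [Matrix.updateRow_apply]
  split_ifs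
  · rw [Pi.single_apply]
    split_ifs <;> simp
  · exact h i' j'

/-- the family of polynomials -/
noncomputable def fam (K : Type*) [Field K] [Algebra (ZMod 2) K] {n r : ℕ} (P : Finset (Fin n))
    (k : Fin r → Pr n → ZMod 2) (j : Pr n × (Fin r → ZMod 2)) : MvPolynomial (Fin r) K :=
  if j.1.1.1 ∉ P ∧ j.1.1.2 ∉ P then
    (pri (QX K k) P).det * (∑ a, MvPolynomial.X a * MvPolynomial.C (algebraMap (ZMod 2) K (j.2 a))) -
      ∑ s : P, ∑ t : P, QX K k j.1.1.1 s * (pri (QX K k) P).adjugate s t * QX K k t j.1.1.2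
  else 0

theorem degreeOf_fam {K : Type*} [Field K] [Algebra (ZMod 2) K] {n r : ℕ} (P : Finset (Fin n))
    (k : Fin r → Pr n → ZMod 2) (j : Pr n × (Fin r → ZMod 2)) (i : Fin r) : (fam K P k j).degreeOf i ≤ n := by
  refine (MvPolynomial.degreeOf_le_totalDegree _ _).trans ?_
  unfold fam
  split_ifs with h
  · have hP : P.card + 2 ≤ n := by
      have h1 : (insert j.1.1.1 (insert j.1.1.2 P)).card = P.card + 2 := by
        rw [card_insert_of_notMem, card_insert_of_notMem h.2]
        rw [mem_insert, not_or]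
        exact ⟨j.1.2.ne, h.1⟩
      have h2 := card_le_univ (insert j.1.1.1 (insert j.1.1.2 P))
      rw [h1, Fintype.card_fin] at h2
      exact h2
    have hpri : ∀ s t, (pri (QX K k) P s t).totalDegree ≤ 1 := fun s t => totalDegree_QX k _ _
    have hd := totalDegree_det _ hpri
    rw [Fintype.card_coe] at hd
    refine (MvPolynomial.totalDegree_sub _ _).trans (max_le ?_ ?_)
    · refine (MvPolynomial.totalDegree_mul _ _).trans ?_
      have := totalDegree_lin (fun a => algebraMap (ZMod 2) K (j.2 a))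
      omega
    · refine MvPolynomial.totalDegree_finsetSum_le fun s _ => MvPolynomial.totalDegree_finsetSum_le fun t _ => ?_
      refine (MvPolynomial.totalDegree_mul _ _).trans ?_
      have h1 := MvPolynomial.totalDegree_mul (QX K k j.1.1.1 s) ((pri (QX K k) P).adjugate s t)
      have h2 := totalDegree_adjugate _ hpri s t
      rw [Fintype.card_coe] at h2
      have h3 := totalDegree_QX (K := K) k j.1.1.1 s
      have h4 := totalDegree_QX (K := K) k t j.1.1.2
      omega
  · simp

theorem eval_fam {K : Type*} [Field K] [Algebra (ZMod 2) K] {n r : ℕ} (P : Finset (Fin n))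
    (k : Fin r → Pr n → ZMod 2) (c : Fin r → K) (p : Pr n) (b : Fin r → ZMod 2) (h : p.1.1 ∉ P ∧ p.1.2 ∉ P) :
    MvPolynomial.eval c (fam K P k (p, b)) = (pri (Q c k) P).det * (∑ a, c a * algebraMap (ZMod 2) K (b a)) -
      ∑ s : P, ∑ t : P, Q c k p.1.1 s * (pri (Q c k) P).adjugate s t * Q c k t p.1.2 := by
  unfold fam
  rw [if_pos h]
  have hm : (MvPolynomial.eval c).mapMatrix (pri (QX K k) P) = pri (Q c k) P := by
    ext s t
    exact eval_QX c k s t
  have hadj : ∀ s t, MvPolynomial.eval c ((pri (QX K k) P).adjugate s t) = (pri (Q c k) P).adjugate s t := by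
    intro s t
    rw [← hm, ← RingHom.map_adjugate]
    rfl
  rw [map_sub, map_mul, RingHom.map_det, hm]
  congr 1
  · congr 1
    simp
  · rw [map_sum]
    refine sum_congr rfl fun s _ => ?_
    rw [map_sum]
    refine sum_congr rfl fun t _ => ?_
    rw [map_mul, map_mul, eval_QX, eval_QX, hadj]

/-! ### Counting -/

theorem card_Pr_in {n : ℕ} (S : Finset (Fin n)) :
    (univ.filter (fun p : Pr n => p.1.1 ∈ S ∧ p.1.2 ∈ S)).card = S.card.choose 2 := by
  classical
  rw [← card_powersetCard]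
  refine card_bij (fun p _ => ({p.1.1, p.1.2} : Finset (Fin n))) ?_ ?_ ?_
  · intro p hp
    rw [mem_filter] at hp
    rw [mem_powersetCard]
    refine ⟨?_, card_pair p.2.ne⟩
    intro x hx
    rw [mem_insert, mem_singleton] at hx
    rcases hx with rfl | rfl
    · exact hp.2.1
    · exact hp.2.2
  · intro p _ q _ h
    have h1 : p.1.1 ∈ ({q.1.1, q.1.2} : Finset (Fin n)) := by rw [← h]; simp
    have h2 : p.1.2 ∈ ({q.1.1, q.1.2} : Finset (Fin n)) := by rw [← h]; simp
    have h3 := p.2
    have h4 := q.2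
    rw [mem_insert, mem_singleton] at h1 h2
    rcases h1 with h1 | h1 <;> rcases h2 with h2 | h2
    · rw [h1, h2] at h3
      exact absurd h3 (lt_irrefl _)
    · exact Subtype.ext (Prod.ext h1 h2)
    · rw [h1, h2] at h3
      exact absurd h3 (lt_asymm h4)
    · rw [h1, h2] at h3
      exact absurd h3 (lt_irrefl _)
  · intro T hT
    rw [mem_powersetCard] at hT
    obtain ⟨x, y, hxy, rfl⟩ := card_eq_two.1 hT.2
    have hx : x ∈ S := hT.1 (by simp)
    have hy : y ∈ S := hT.1 (by simp)
    rcases lt_or_gt_of_ne hxy with h | h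
    · exact ⟨⟨(x, y), h⟩, by simp [hx, hy], rfl⟩
    · exact ⟨⟨(y, x), h⟩, by simp [hx, hy], pair_comm _ _⟩

theorem card_Pr (n : ℕ) : Fintype.card (Pr n) = n.choose 2 := by
  have h := card_Pr_in (univ : Finset (Fin n))
  rw [card_univ, Fintype.card_fin] at h
  rw [← h, ← card_univ]
  congr 1
  ext p
  simp

/-- the entries at the pairs that meet `P` -/
def mask {n r : ℕ} (P : Finset (Fin n)) (q : Fin r → Pr n → ZMod 2) : Fin r → Pr n → ZMod 2 :=
  fun a p => if p.1.1 ∈ P ∨ p.1.2 ∈ P then q a p else 0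

theorem Q_mask {K : Type*} [Field K] [Algebra (ZMod 2) K] {n r : ℕ} (P : Finset (Fin n))
    (c : Fin r → K) (q : Fin r → Pr n → ZMod 2) {i j : Fin n} (h : i ∈ P ∨ j ∈ P) :
    Q c (mask P q) i j = Q c q i j := by
  unfold Q
  by_cases h1 : i < j
  · rw [dif_pos h1, dif_pos h1]
    refine sum_congr rfl fun a _ => ?_
    rw [mask, if_pos h]
  · rw [dif_neg h1, dif_neg h1]
    by_cases h2 : j < i
    · rw [dif_pos h2, dif_pos h2]
      refine sum_congr rfl fun a _ => ?_
      rw [mask, if_pos h.symm]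
    · rw [dif_neg h2, dif_neg h2]

theorem Q_symm {K : Type*} [Field K] [Algebra (ZMod 2) K] {n r : ℕ}
    (c : Fin r → K) (q : Fin r → Pr n → ZMod 2) (i j : Fin n) : Q c q i j = Q c q j i := by
  unfold Q
  rcases lt_trichotomy i j with h | rfl | h
  · rw [dif_pos h, dif_neg (lt_asymm h), dif_pos h]
  · rfl
  · rw [dif_neg (lt_asymm h), dif_pos h, dif_pos h]

theorem card_mask {n r a : ℕ} (P : Finset (Fin n)) (hP : P.card + a ≤ n) :
    (univ.filter (fun k : Fin r → Pr n → ZMod 2 => ∀ b p, ¬ (p.1.1 ∈ P ∨ p.1.2 ∈ P) → k b p = 0)).card ≤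
      2 ^ (r * (n.choose 2 - a.choose 2)) := by
  classical
  obtain ⟨m, hm⟩ : ∃ m, m = Fintype.card {p : Pr n // p.1.1 ∈ P ∨ p.1.2 ∈ P} := ⟨_, rfl⟩
  have h1 : (univ.filter (fun k : Fin r → Pr n → ZMod 2 => ∀ b p, ¬ (p.1.1 ∈ P ∨ p.1.2 ∈ P) → k b p = 0)).card ≤
      (univ : Finset (Fin r → {p : Pr n // p.1.1 ∈ P ∨ p.1.2 ∈ P} → ZMod 2)).card := by
    refine card_le_card_of_injOn (fun k b p => k b p.1) (fun _ _ => mem_coe.2 (mem_univ _)) ?_
    intro k hk k' hk' h
    rw [mem_coe, mem_filter] at hk hk'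
    funext b p
    by_cases hp : p.1.1 ∈ P ∨ p.1.2 ∈ P
    · exact congrFun (congrFun h b) ⟨p, hp⟩
    · rw [hk.2 b p hp, hk'.2 b p hp]
  refine h1.trans ?_
  rw [card_univ, Fintype.card_fun, Fintype.card_fun, ZMod.card, Fintype.card_fin, ← hm, ← pow_mul]
  refine Nat.pow_le_pow_right (by norm_num) ?_
  rw [mul_comm]
  refine Nat.mul_le_mul_left _ ?_
  have h2 : m + (univ.filter (fun p : Pr n => p.1.1 ∈ Pᶜ ∧ p.1.2 ∈ Pᶜ)).card = n.choose 2 := by
    have h3 : (univ.filter (fun p : Pr n => p.1.1 ∈ Pᶜ ∧ p.1.2 ∈ Pᶜ)) =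
        univ.filter (fun p : Pr n => ¬ (p.1.1 ∈ P ∨ p.1.2 ∈ P)) := by
      ext p
      simp [not_or]
    rw [h3, hm, Fintype.card_subtype, ← card_Pr, ← card_univ]
    exact card_filter_add_card_filter_not (fun p : Pr n => p.1.1 ∈ P ∨ p.1.2 ∈ P)
  rw [card_Pr_in, card_compl, Fintype.card_fin] at h2
  have h3 : a.choose 2 ≤ (n - P.card).choose 2 := Nat.choose_le_choose 2 (by omega)
  omega

/-- the number of zero patterns -/
theorem zeroPat {K : Type*} [Field K] {r : ℕ} {J : Type*} [Fintype J] [DecidableEq J]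
    (f : J → MvPolynomial (Fin r) K) (Δ : ℕ) (hf : ∀ j i, (f j).degreeOf i ≤ Δ)
    (P : Set (Finset J))
    (hP : ∀ Z ∈ P, ∃ u : Fin r → K, ∀ j, MvPolynomial.eval u (f j) ≠ 0 ↔ j ∈ Z) :
    P.ncard ≤ (Fintype.card J * Δ + 1) ^ r := by
  classical
  choose! u hu using hP
  obtain ⟨m, hm⟩ : ∃ m, m = Fintype.card J * Δ := ⟨_, rfl⟩
  rw [← hm]
  have hg : ∀ Z : Finset J, (∏ j ∈ Z, f j) ∈ MvPolynomial.restrictDegree (Fin r) K m := by
    intro Z
    rw [MvPolynomial.mem_restrictDegree]
    intro s hs i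
    refine (MvPolynomial.monomial_le_degreeOf i hs).trans ?_
    refine (MvPolynomial.degreeOf_prod_le i Z f).trans ?_
    refine (sum_le_sum fun j _ => hf j i).trans ?_
    rw [sum_const, smul_eq_mul, hm]
    exact Nat.mul_le_mul_right _ (card_le_univ Z)
  have hev : ∀ Z, ∀ Z' ∈ P, MvPolynomial.eval (u Z') (∏ j ∈ Z, f j) ≠ 0 ↔ Z ⊆ Z' := by
    intro Z Z' hZ'
    rw [map_prod, Finset.prod_ne_zero_iff]
    constructor
    · intro h j hj
      exact (hu Z' hZ' j).1 (h j hj)
    · intro h j hj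
      exact (hu Z' hZ' j).2 (h hj)
  have hfin : P.Finite := Set.toFinite P
  have hli : LinearIndependent K (fun Z : P => (⟨∏ j ∈ (Z : Finset J), f j, hg Z⟩ : MvPolynomial.restrictDegree (Fin r) K m)) := by
    have : Fintype P := hfin.fintype
    rw [Fintype.linearIndependent_iff]
    intro a ha
    by_contra hcon
    push Not at hcon
    obtain ⟨Z₁, hZ₁⟩ := hcon
    obtain ⟨Z₀, hZ₀, hmin⟩ := exists_min_image (univ.filter (fun Z : P => a Z ≠ 0)) (fun Z => (Z : Finset J).card)
      ⟨Z₁, by simp [hZ₁]⟩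
    rw [mem_filter] at hZ₀
    have h1 : ∑ Z : P, a Z * MvPolynomial.eval (u Z₀) (∏ j ∈ (Z : Finset J), f j) = 0 := by
      have h2 := congrArg (fun x : MvPolynomial.restrictDegree (Fin r) K m => MvPolynomial.eval (u Z₀) (x : MvPolynomial (Fin r) K)) ha
      simp only [Submodule.coe_sum, Submodule.coe_smul, Submodule.coe_zero, map_sum, map_zero, MvPolynomial.smul_eval] at h2
      exact h2
    rw [sum_eq_single Z₀] at h1
    · rcases mul_eq_zero.1 h1 with h2 | h2
      · exact hZ₀.2 h2
      · exact (hev Z₀ Z₀ Z₀.2).2 (Finset.Subset.refl _) h2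
    · intro Z _ hZ
      by_cases haZ : a Z = 0
      · rw [haZ, zero_mul]
      · by_cases h2 : MvPolynomial.eval (u Z₀) (∏ j ∈ (Z : Finset J), f j) = 0
        · rw [h2, mul_zero]
        · exfalso
          have h3 := (hev Z Z₀ Z₀.2).1 h2
          have h4 := hmin Z (by simp [haZ])
          exact hZ (Subtype.ext (eq_of_subset_of_card_le h3 h4))
    · intro h
      exact absurd (mem_univ _) h
  have : Fintype P := hfin.fintype
  -- the dimension
  let S : Set (Fin r →₀ ℕ) := {n | ∀ i, n i ≤ m}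
  have hS : MvPolynomial.restrictDegree (Fin r) K m = MvPolynomial.restrictSupport K S := rfl
  let e : S → (Fin r → Fin (m + 1)) := fun s i => ⟨(s : Fin r →₀ ℕ) i, Nat.lt_succ_of_le (s.2 i)⟩
  have he : Function.Injective e := by
    intro s t h
    apply Subtype.ext
    ext i
    have := congrFun h i
    exact congrArg Fin.val this
  have : Finite S := Finite.of_injective e he
  have : Fintype S := Fintype.ofFinite S
  have hb := MvPolynomial.basisRestrictSupport K S
  have : Module.Finite K (MvPolynomial.restrictDegree (Fin r) K m) := Module.Finite.of_basis hb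
  have h1 := hli.fintype_card_le_finrank
  have h2 : Module.finrank K (MvPolynomial.restrictDegree (Fin r) K m) = Fintype.card S :=
    Module.finrank_eq_card_basis hb
  have h3 : Fintype.card S ≤ (m + 1) ^ r := by
    refine (Fintype.card_le_of_injective e he).trans ?_
    rw [Fintype.card_fun, Fintype.card_fin, Fintype.card_fin]
  rw [Set.ncard_eq_toFinset_card' P, Set.toFinset_card]
  omega

/-- **The tuples of binary alternating matrices with an independent combination of low rank** -/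
theorem card_bad_indep (K : Type*) [Field K] [Algebra (ZMod 2) K] {n r a : ℕ} (ha : a ≤ n) :
    {q : Fin r → Pr n → ZMod 2 | ∃ c : Fin r → K, LinearIndependent (ZMod 2) c ∧
      (Q c q).rank + a ≤ n}.ncard ≤
    2 ^ n * (n ^ 3 * 2 ^ r + 1) ^ r * 2 ^ (r * (n.choose 2 - a.choose 2)) := by
  classical
  obtain ⟨B, hB⟩ : ∃ B : Finset (Fin r → Pr n → ZMod 2), B = univ.filter (fun q => ∃ c : Fin r → K,
    LinearIndependent (ZMod 2) c ∧ (Q c q).rank + a ≤ n) := ⟨_, rfl⟩
  have hBc : {q : Fin r → Pr n → ZMod 2 | ∃ c : Fin r → K, LinearIndependent (ZMod 2) c ∧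
      (Q c q).rank + a ≤ n}.ncard = B.card := by
    rw [← Set.ncard_coe_finset, hB]
    congr 1
    ext q
    simp
  rw [hBc]
  have hch : ∀ q : Fin r → Pr n → ZMod 2, ∃ (c : Fin r → K) (P : Finset (Fin n)), q ∈ B →
      (LinearIndependent (ZMod 2) c ∧ P.card + a ≤ n ∧ (pri (Q c q) P).det ≠ 0 ∧
        ∀ i j, (pri (Q c q) P).det * Q c q i j =
          ∑ s : P, ∑ t : P, Q c q i s * (pri (Q c q) P).adjugate s t * Q c q t j) := by
    intro q
    by_cases hq : q ∈ B
    · rw [hB, mem_filter] at hq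
      obtain ⟨-, c, hc, hr⟩ := hq
      obtain ⟨P, h1, h2, h3⟩ := principal (Q c q) (Q_symm c q)
      exact ⟨c, P, fun _ => ⟨hc, by omega, h2, h3⟩⟩
    · exact ⟨fun _ => 0, ∅, fun h => absurd h hq⟩
  choose c P hcP using hch
  obtain ⟨F, hF⟩ : ∃ F : (Fin r → Pr n → ZMod 2) → Finset (Fin n) × (Fin r → Pr n → ZMod 2),
    F = fun q => (P q, mask (P q) q) := ⟨_, rfl⟩
  have hJ : Fintype.card (Pr n × (Fin r → ZMod 2)) * n + 1 ≤ n ^ 3 * 2 ^ r + 1 := by
    rw [Fintype.card_prod, Fintype.card_fun, ZMod.card, Fintype.card_fin, card_Pr]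
    have h1 : n.choose 2 ≤ n ^ 2 := Nat.choose_le_pow n 2
    have h2 : n.choose 2 * 2 ^ r * n ≤ n ^ 2 * 2 ^ r * n := by gcongr
    have h3 : n ^ 2 * 2 ^ r * n = n ^ 3 * 2 ^ r := by ring
    omega
  -- the fibres
  have hfib : ∀ x ∈ B.image F, (B.filter (fun q => F q = x)).card ≤ (n ^ 3 * 2 ^ r + 1) ^ r := by
    rintro ⟨P₀, k⟩ _
    obtain ⟨A, hA⟩ : ∃ A, A = B.filter (fun q => F q = (P₀, k)) := ⟨_, rfl⟩
    rw [← hA]
    have hAm : ∀ q ∈ A, q ∈ B ∧ P q = P₀ ∧ mask P₀ q = k := by
      intro q hq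
      rw [hA, mem_filter, hF] at hq
      have h1 : P q = P₀ := congrArg Prod.fst hq.2
      have h2 : mask (P q) q = k := congrArg Prod.snd hq.2
      exact ⟨hq.1, h1, by rw [← h1]; exact h2⟩
    obtain ⟨Z, hZ⟩ : ∃ Z : (Fin r → Pr n → ZMod 2) → Finset (Pr n × (Fin r → ZMod 2)),
      Z = fun q => univ.filter (fun j => MvPolynomial.eval (c q) (fam K P₀ k j) ≠ 0) := ⟨_, rfl⟩
    have hZm : ∀ q j, MvPolynomial.eval (c q) (fam K P₀ k j) ≠ 0 ↔ j ∈ Z q := by
      intro q j
      rw [hZ]
      simp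
    -- the determinant and the sum depend on the known entries only
    have hpri : ∀ q ∈ A, pri (Q (c q) k) P₀ = pri (Q (c q) q) P₀ := by
      intro q hq
      obtain ⟨-, -, h2⟩ := hAm q hq
      ext s t
      show Q (c q) k s t = Q (c q) q s t
      rw [← h2]
      exact Q_mask P₀ (c q) q (Or.inl s.2)
    have hev : ∀ q ∈ A, ∀ (p : Pr n) (b : Fin r → ZMod 2), p.1.1 ∉ P₀ ∧ p.1.2 ∉ P₀ →
        MvPolynomial.eval (c q) (fam K P₀ k (p, b)) =
          (pri (Q (c q) q) P₀).det * (∑ a, c q a * algebraMap (ZMod 2) K (b a - q a p)) := by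
      intro q hq p b hp
      obtain ⟨h0, h1, h2⟩ := hAm q hq
      rw [eval_fam P₀ k (c q) p b hp, hpri q hq]
      have h3 := (hcP q h0).2.2.2 p.1.1 p.1.2
      rw [h1] at h3
      have h4 : Q (c q) q p.1.1 p.1.2 = ∑ a, c q a * algebraMap (ZMod 2) K (q a p) := by
        unfold Q
        rw [dif_pos p.2]
      have h5 : ∑ s : P₀, ∑ t : P₀, Q (c q) k p.1.1 s * (pri (Q (c q) q) P₀).adjugate s t * Q (c q) k t p.1.2 =
          ∑ s : P₀, ∑ t : P₀, Q (c q) q p.1.1 s * (pri (Q (c q) q) P₀).adjugate s t * Q (c q) q t p.1.2 := by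
        refine sum_congr rfl fun s _ => sum_congr rfl fun t _ => ?_
        rw [← h2, Q_mask P₀ (c q) q (Or.inr s.2), Q_mask P₀ (c q) q (Or.inl t.2)]
      rw [h5, ← h3, h4, ← mul_sub, ← sum_sub_distrib]
      congr 1
      refine sum_congr rfl fun a _ => ?_
      rw [map_sub]
      ring
    have hinj : Set.InjOn Z (A : Set (Fin r → Pr n → ZMod 2)) := by
      intro q hq q' hq' h
      rw [mem_coe] at hq hq'
      funext b p
      by_cases hp : p.1.1 ∈ P₀ ∨ p.1.2 ∈ P₀
      · have h1 := congrFun (congrFun (hAm q hq).2.2 b) p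
        have h2 := congrFun (congrFun (hAm q' hq').2.2 b) p
        rw [mask, if_pos hp] at h1 h2
        rw [h1, h2]
      · rw [not_or] at hp
        -- the polynomial of `q` vanishes at the point of `q'`
        have h1 : MvPolynomial.eval (c q) (fam K P₀ k (p, fun a => q a p)) = 0 := by
          rw [hev q hq p _ hp]
          simp
        have h2 : MvPolynomial.eval (c q') (fam K P₀ k (p, fun a => q a p)) = 0 := by
          by_contra hne
          have h3 := (hZm q' _).1 hne
          rw [← h] at h3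
          exact (hZm q _).2 h3 h1
        rw [hev q' hq' p _ hp] at h2
        obtain ⟨h0', h1', -⟩ := hAm q' hq'
        have hdet := (hcP q' h0').2.2.1
        rw [h1'] at hdet
        have h4 := (mul_eq_zero.1 h2).resolve_left hdet
        have h5 : ∑ a, (q a p - q' a p) • c q' a = 0 := by
          rw [← h4]
          refine sum_congr rfl fun a _ => ?_
          rw [Algebra.smul_def, mul_comm]
        have h6 := Fintype.linearIndependent_iff.1 (hcP q' h0').1 _ h5 b
        exact sub_eq_zero.1 h6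
    rw [← card_image_of_injOn hinj]
    have h1 := zeroPat (fam K P₀ k) n (degreeOf_fam P₀ k) (↑(A.image Z) : Set (Finset (Pr n × (Fin r → ZMod 2)))) (by
      intro z hz
      rw [mem_coe, mem_image] at hz
      obtain ⟨q, -, rfl⟩ := hz
      exact ⟨c q, hZm q⟩)
    rw [Set.ncard_coe_finset] at h1
    exact h1.trans (Nat.pow_le_pow_left hJ r)
  have h1 := card_le_mul_card_image B _ hfib
  have h2 : (B.image F).card ≤ 2 ^ (r * (n.choose 2 - a.choose 2)) * 2 ^ n := by
    have h3 := card_le_mul_card_image (f := Prod.fst) (B.image F) (2 ^ (r * (n.choose 2 - a.choose 2))) (by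
      intro P₀ hP₀
      rw [image_image, mem_image] at hP₀
      obtain ⟨q, hq, rfl⟩ := hP₀
      have h4 : (Prod.fst ∘ F) q = P q := by rw [hF]; rfl
      rw [h4]
      refine le_trans ?_ (card_mask (r := r) (P q) (hcP q hq).2.1)
      refine card_le_card_of_injOn Prod.snd ?_ ?_
      · rintro x hx
        rw [mem_coe, mem_filter, mem_image] at hx
        obtain ⟨⟨q', -, rfl⟩, h5⟩ := hx
        rw [mem_coe, mem_filter]
        refine ⟨mem_univ _, fun b p hp => ?_⟩
        rw [hF] at h5 ⊢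
        show mask (P q') q' b p = 0
        have h6 : P q' = P q := h5
        rw [h6, mask, if_neg hp]
      · rintro x hx y hy h
        rw [mem_coe, mem_filter] at hx hy
        exact Prod.ext (hx.2.trans hy.2.symm) h)
    refine h3.trans (Nat.mul_le_mul_left _ ?_)
    refine (card_le_univ _).trans ?_
    rw [Fintype.card_finset, Fintype.card_fin]
  calc B.card ≤ (n ^ 3 * 2 ^ r + 1) ^ r * (B.image F).card := h1
    _ ≤ (n ^ 3 * 2 ^ r + 1) ^ r * (2 ^ (r * (n.choose 2 - a.choose 2)) * 2 ^ n) := Nat.mul_le_mul_left _ h2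
    _ = 2 ^ n * (n ^ 3 * 2 ^ r + 1) ^ r * 2 ^ (r * (n.choose 2 - a.choose 2)) := by ring

end H26QX
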