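import Pool.Agent.H26.QX.LowRank

/-!
# Counting tuples of quadratic forms with a combination of low rank over an extension field
-/

namespace H26QX

open Finset Module

section fibre

variable {A B : Type*} [AddCommGroup A] [Module (ZMod 2) A] [AddCommGroup B] [Module (ZMod 2) B]
  [Fintype A] [Fintype B]

/-- the size of the preimage of a set under a surjective linear map -/
lemma card_preim (f : A →ₗ[ZMod 2] B) (hf : Function.Surjective f) (S : Finset B) (k : ℕ)
    (hk : finrank (ZMod 2) A ≤ k + finrank (ZMod 2) B) (T : Finset A) (hT : ∀ x ∈ T, f x ∈ S) :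
    T.card ≤ S.card * 2 ^ k := by
  classical
  have hker : Fintype.card (LinearMap.ker f) ≤ 2 ^ k := by
    have h1 := Module.card_eq_pow_finrank (K := ZMod 2) (V := LinearMap.ker f)
    rw [ZMod.card] at h1
    rw [h1]
    refine Nat.pow_le_pow_right (by norm_num) ?_
    have h2 := LinearMap.finrank_range_add_finrank_ker f
    rw [LinearMap.range_eq_top.mpr hf, finrank_top] at h2
    omega
  rw [mul_comm]
  refine Finset.card_le_mul_card_image_of_maps_to hT _ ?_
  intro b _
  rcases (T.filter fun a => f a = b).eq_empty_or_nonempty with h0 | ⟨x₀, hx₀⟩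
  · rw [h0, card_empty]
    exact Nat.zero_le _
  · refine le_trans ?_ hker
    rw [← card_univ]
    rw [mem_filter] at hx₀
    refine Finset.card_le_card_of_injOn (fun x => if h : f (x - x₀) = 0 then ⟨x - x₀, h⟩ else 0)
      (fun _ _ => mem_univ _) ?_
    intro x hx y hy hxy
    rw [mem_coe, mem_filter] at hx hy
    have h1 : f (x - x₀) = 0 := by rw [map_sub, hx.2, hx₀.2, sub_self]
    have h2 : f (y - x₀) = 0 := by rw [map_sub, hy.2, hx₀.2, sub_self]
    simp only [dif_pos h1, dif_pos h2, Subtype.mk.injEq] at hxy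
    exact sub_left_injective hxy

end fibre

section

variable {n m r : ℕ}

/-- recombination of forms -/
def recomb (g : Fin m → Fin r → ZMod 2) :
    (Fin m → Pr n → ZMod 2) →ₗ[ZMod 2] (Fin r → Pr n → ZMod 2) where
  toFun q := fun a p => ∑ i, g i a * q i p
  map_add' q q' := by
    funext a p
    simp only [Pi.add_apply, mul_add, Finset.sum_add_distrib]
  map_smul' c q := by
    funext a p
    simp only [Pi.smul_apply, smul_eq_mul, RingHom.id_apply, Finset.mul_sum]
    exact Finset.sum_congr rfl fun i _ => by ring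

lemma recomb_apply (g : Fin m → Fin r → ZMod 2) (q : Fin m → Pr n → ZMod 2) (a : Fin r)
    (p : Pr n) : recomb g q a p = ∑ i, g i a * q i p := rfl

/-- `g` has a left inverse -/
def HasInv (g : Fin m → Fin r → ZMod 2) : Prop :=
  ∃ h : Fin r → Fin m → ZMod 2, ∀ a b, ∑ i, h b i * g i a = if b = a then 1 else 0

lemma recomb_surj {g : Fin m → Fin r → ZMod 2} (hg : HasInv g) :
    Function.Surjective (recomb (n := n) g) := by
  obtain ⟨h, hh⟩ := hg
  intro q'
  refine ⟨fun i p => ∑ b, h b i * q' b p, ?_⟩
  funext a p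
  rw [recomb_apply]
  have e1 : ∑ i, g i a * ∑ b, h b i * q' b p = ∑ b, (∑ i, h b i * g i a) * q' b p := by
    simp only [Finset.mul_sum, Finset.sum_mul]
    rw [Finset.sum_comm]
    exact Finset.sum_congr rfl fun b _ => Finset.sum_congr rfl fun i _ => by ring
  rw [e1]
  simp only [hh]
  simp

/-- the combination with coefficients in `K` of linearly dependent coefficients -/
lemma exists_recomb {K : Type*} [Field K] [Algebra (ZMod 2) K] (c : Fin m → K) (hc : c ≠ 0) :
    ∃ r ∈ Icc 1 m, ∃ (g : Fin m → Fin r → ZMod 2) (γ : Fin r → K), HasInv g ∧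
      LinearIndependent (ZMod 2) γ ∧ ∀ q : Fin m → Pr n → ZMod 2, Q c q = Q γ (recomb g q) := by
  classical
  let W : Submodule (ZMod 2) K := Submodule.span (ZMod 2) (Set.range c)
  have hfin : Module.Finite (ZMod 2) W := Module.Finite.span_of_finite _ (Set.finite_range c)
  have hmem : ∀ i, c i ∈ W := fun i => Submodule.subset_span ⟨i, rfl⟩
  let b := Module.finBasis (ZMod 2) W
  refine ⟨finrank (ZMod 2) W, ?_, fun i a => b.repr ⟨c i, hmem i⟩ a, fun a => (b a : K), ?_, ?_, ?_⟩
  · rw [mem_Icc]
    constructor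
    · rw [Nat.succ_le_iff, Module.finrank_pos_iff]
      obtain ⟨i, hi⟩ : ∃ i, c i ≠ 0 := by
        by_contra hne
        push Not at hne
        exact hc (funext hne)
      exact ⟨⟨c i, hmem i⟩, 0, fun h => hi (congrArg Subtype.val h)⟩
    · have := finrank_range_le_card (R := ZMod 2) c
      rw [Fintype.card_fin] at this
      exact this
  · have h1 : ∀ a, ∃ h : Fin m → ZMod 2, ∑ i, h i • c i = (b a : K) := by
      intro a
      exact (Submodule.mem_span_range_iff_exists_fun (ZMod 2)).mp (b a).2
    choose h hh using h1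
    refine ⟨h, ?_⟩
    intro a b'
    have h2 : ∑ i, h b' i • (⟨c i, hmem i⟩ : W) = b b' := by
      apply Subtype.ext
      rw [← hh b']
      simp
    have h3 := congrArg (fun x => b.repr x a) h2
    simp only [map_sum, map_smul, Finsupp.coe_finsetSum, Finset.sum_apply, Finsupp.smul_apply,
      smul_eq_mul, Basis.repr_self, Finsupp.single_apply] at h3
    exact h3
  · exact b.linearIndependent.map' W.subtype (Submodule.ker_subtype W)
  · intro q
    have hci : ∀ i, c i = ∑ a, algebraMap (ZMod 2) K (b.repr ⟨c i, hmem i⟩ a) * (b a : K) := by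
      intro i
      have h1 := b.sum_repr ⟨c i, hmem i⟩
      have h2 := congrArg Subtype.val h1
      simp only [Submodule.coe_sum, Submodule.coe_smul, Algebra.smul_def] at h2
      exact h2.symm
    have key : ∀ p : Pr n, ∑ i, c i * algebraMap (ZMod 2) K (q i p)
        = ∑ a, (b a : K) * algebraMap (ZMod 2) K (recomb (fun i a => b.repr ⟨c i, hmem i⟩ a) q a p) := by
      intro p
      have e1 : ∑ i, c i * algebraMap (ZMod 2) K (q i p)
          = ∑ i, ∑ a, (b a : K) * (algebraMap (ZMod 2) K (b.repr ⟨c i, hmem i⟩ a)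
            * algebraMap (ZMod 2) K (q i p)) := by
        refine Finset.sum_congr rfl fun i _ => ?_
        conv_lhs => rw [hci i]
        rw [Finset.sum_mul]
        exact Finset.sum_congr rfl fun a _ => by ring
      rw [e1, Finset.sum_comm]
      refine Finset.sum_congr rfl fun a _ => ?_
      rw [recomb_apply, map_sum, Finset.mul_sum]
      exact Finset.sum_congr rfl fun i _ => by rw [map_mul]
    ext i j
    unfold Q
    split_ifs with h1 h2
    · exact key _
    · exact key _
    · rfl

end

theorem card_bad (K : Type*) [Field K] [Algebra (ZMod 2) K] {n m a : ℕ} (ha : a ≤ n) :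
    {q : Fin m → Pr n → ZMod 2 | ∃ c : Fin m → K, c ≠ 0 ∧ (Q c q).rank + a ≤ n}.ncard ≤
    ∑ r ∈ Icc 1 m, 2 ^ (m * r) * (2 ^ n * (n ^ 3 * 2 ^ r + 1) ^ r *
      2 ^ (r * (n.choose 2 - a.choose 2))) * 2 ^ ((m - r) * n.choose 2) := by
  classical
  -- the sets of independent combinations
  let S : ∀ r : ℕ, Finset (Fin r → Pr n → ZMod 2) := fun r =>
    univ.filter fun q => ∃ c : Fin r → K, LinearIndependent (ZMod 2) c ∧ (Q c q).rank + a ≤ n
  have hS : ∀ r, (S r).card ≤ 2 ^ n * (n ^ 3 * 2 ^ r + 1) ^ r *
      2 ^ (r * (n.choose 2 - a.choose 2)) := by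
    intro r
    refine le_trans (le_of_eq ?_) (card_bad_indep K ha (r := r))
    rw [← Set.ncard_coe_finset]
    congr 1
    ext q
    simp [S]
  let T : ∀ r : ℕ, (Fin m → Fin r → ZMod 2) → Finset (Fin m → Pr n → ZMod 2) := fun r g =>
    univ.filter fun q => HasInv g ∧ recomb g q ∈ S r
  have hT : ∀ r ∈ Icc 1 m, ∀ g : Fin m → Fin r → ZMod 2,
      (T r g).card ≤ (S r).card * 2 ^ ((m - r) * n.choose 2) := by
    intro r hr g
    rw [mem_Icc] at hr
    by_cases hg : HasInv g
    · refine card_preim (recomb g) (recomb_surj hg) (S r) _ ?_ (T r g) ?_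
      · have hfr : ∀ s : ℕ, finrank (ZMod 2) (Fin s → Pr n → ZMod 2) = s * n.choose 2 := by
          intro s
          rw [Module.finrank_pi_fintype]
          simp only [Module.finrank_fintype_fun_eq_card, card_Pr, Finset.sum_const, card_univ,
            Fintype.card_fin, smul_eq_mul]
        rw [hfr, hfr, ← Nat.add_mul]
        refine Nat.mul_le_mul_right _ ?_
        omega
      · intro q hq
        simp only [T, mem_filter] at hq
        exact hq.2.2
    · have h0 : T r g = ∅ := by
        simp [T, hg]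
      rw [h0, card_empty]
      exact Nat.zero_le _
  have hsub : {q : Fin m → Pr n → ZMod 2 | ∃ c : Fin m → K, c ≠ 0 ∧ (Q c q).rank + a ≤ n} ⊆
      (((Icc 1 m).biUnion fun r => univ.biUnion (T r) : Finset (Fin m → Pr n → ZMod 2)) :
        Set (Fin m → Pr n → ZMod 2)) := by
    rintro q ⟨c, hc, hrk⟩
    obtain ⟨r, hr, g, γ, hg, hγ, hQ⟩ := exists_recomb (n := n) c hc
    rw [mem_coe, mem_biUnion]
    refine ⟨r, hr, ?_⟩
    rw [mem_biUnion]
    refine ⟨g, mem_univ _, ?_⟩
    simp only [T, S, mem_filter, mem_univ, true_and]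
    exact ⟨hg, γ, hγ, by rw [← hQ]; exact hrk⟩
  refine le_trans (Set.ncard_le_ncard hsub (Finset.finite_toSet _)) ?_
  rw [Set.ncard_coe_finset]
  refine le_trans Finset.card_biUnion_le ?_
  refine Finset.sum_le_sum fun r hr => ?_
  refine le_trans Finset.card_biUnion_le ?_
  refine le_trans (Finset.sum_le_sum fun g _ => hT r hr g) ?_
  rw [Finset.sum_const, card_univ, smul_eq_mul]
  have hc : Fintype.card (Fin m → Fin r → ZMod 2) = 2 ^ (m * r) := by
    simp only [Fintype.card_fun, ZMod.card, Fintype.card_fin]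
    rw [← pow_mul, mul_comm]
  rw [hc, mul_assoc (2 ^ (m * r))]
  gcongr
  exact hS r

end H26QX
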