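import Mathlib

/-!
# The algebra `K[X]/(X_i²)` over a field of characteristic two, as functions on finite sets
-/

namespace H26QX

open Finset

/-- The squarefree algebra over `K` on the set of variables `σ`: functions on finite subsets. -/
def SqK (K : Type*) (σ : Type*) : Type _ := Finset σ → K

variable {K : Type*} [Field K] {σ : Type*} [DecidableEq σ]

namespace SqK

instance : AddCommGroup (SqK K σ) := inferInstanceAs (AddCommGroup (Finset σ → K))

/-- multiplication of the squarefree algebra -/
def mulFun (f g : SqK K σ) : SqK K σ := fun T => ∑ S ∈ T.powerset, f S * g (T \ S)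

/-- the unit of the squarefree algebra -/
def oneFun : SqK K σ := fun T => if T = ∅ then 1 else 0

omit [DecidableEq σ] [Field K] in
@[ext] theorem ext {f g : SqK K σ} (h : ∀ T, f T = g T) : f = g := funext h

omit [DecidableEq σ] in
@[simp] theorem add_apply (f g : SqK K σ) (T : Finset σ) : (f + g) T = f T + g T := rfl

omit [DecidableEq σ] in
@[simp] theorem zero_apply (T : Finset σ) : (0 : SqK K σ) T = 0 := rfl

theorem mulFun_comm (f g : SqK K σ) : mulFun f g = mulFun g f := by
  ext T
  unfold mulFun
  refine Finset.sum_nbij' (fun S => T \ S) (fun S => T \ S) ?_ ?_ ?_ ?_ ?_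
  · intro S _; simp
  · intro S _; simp
  · intro S hS; simp only [mem_powerset] at hS; exact Finset.sdiff_sdiff_eq_self hS
  · intro S hS; simp only [mem_powerset] at hS; exact Finset.sdiff_sdiff_eq_self hS
  · intro S hS
    simp only [mem_powerset] at hS
    rw [Finset.sdiff_sdiff_eq_self hS, mul_comm]

theorem mulFun_assoc (f g h : SqK K σ) : mulFun (mulFun f g) h = mulFun f (mulFun g h) := by
  ext T
  unfold mulFun
  simp only [Finset.sum_mul, Finset.mul_sum]
  rw [Finset.sum_sigma', Finset.sum_sigma']
  refine Finset.sum_nbij' (fun p => ⟨p.2, p.1 \ p.2⟩) (fun p => ⟨p.1 ∪ p.2, p.1⟩) ?_ ?_ ?_ ?_ ?_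
  · rintro ⟨S, R⟩ hp
    simp only [mem_sigma, mem_powerset] at hp ⊢
    exact ⟨hp.2.trans hp.1, Finset.sdiff_subset_sdiff hp.1 (Finset.Subset.refl _)⟩
  · rintro ⟨R, Q⟩ hp
    simp only [mem_sigma, mem_powerset] at hp ⊢
    exact ⟨Finset.union_subset hp.1 (hp.2.trans Finset.sdiff_subset), Finset.subset_union_left⟩
  · rintro ⟨S, R⟩ hp
    simp only [mem_sigma, mem_powerset] at hp
    have : R ∪ S \ R = S := Finset.union_sdiff_of_subset hp.2
    simp [this]
  · rintro ⟨R, Q⟩ hp
    simp only [mem_sigma, mem_powerset] at hp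
    have hd : Disjoint Q R := (Finset.subset_sdiff.1 hp.2).2
    have : (R ∪ Q) \ R = Q := by
      rw [Finset.union_sdiff_left]
      exact Finset.sdiff_eq_self_of_disjoint hd
    simp [this]
  · rintro ⟨S, R⟩ hp
    simp only [mem_sigma, mem_powerset] at hp
    have : (T \ R) \ (S \ R) = T \ S := by
      ext x
      simp only [mem_sdiff]
      constructor
      · rintro ⟨⟨h1, h2⟩, h3⟩
        exact ⟨h1, fun h => h3 ⟨h, h2⟩⟩
      · rintro ⟨h1, h2⟩
        exact ⟨⟨h1, fun h => h2 (hp.2 h)⟩, fun h => h2 h.1⟩
    simp only [this, mul_assoc]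

theorem one_mulFun (f : SqK K σ) : mulFun oneFun f = f := by
  ext T
  unfold mulFun oneFun
  rw [Finset.sum_eq_single ∅]
  · simp
  · intro S _ hS; simp [hS]
  · intro h; exact absurd (Finset.empty_mem_powerset T) h

theorem mulFun_add (f g h : SqK K σ) : mulFun f (g + h) = mulFun f g + mulFun f h := by
  ext T
  simp [mulFun, mul_add, Finset.sum_add_distrib]

instance : CommRing (SqK K σ) :=
  { (inferInstance : AddCommGroup (SqK K σ)) with
    mul := mulFun
    one := oneFun
    mul_assoc := mulFun_assoc
    one_mul := one_mulFun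
    mul_one := fun f => (mulFun_comm f oneFun).trans (one_mulFun f)
    left_distrib := mulFun_add
    right_distrib := fun f g h => by
      change mulFun (f + g) h = mulFun f h + mulFun g h
      rw [mulFun_comm, mulFun_add, mulFun_comm h f, mulFun_comm h g]
    zero_mul := fun f => by
      change mulFun 0 f = 0
      ext T; simp [mulFun]
    mul_zero := fun f => by
      change mulFun f 0 = 0
      ext T; simp [mulFun]
    mul_comm := mulFun_comm }

theorem mul_apply (f g : SqK K σ) (T : Finset σ) :
    (f * g) T = ∑ S ∈ T.powerset, f S * g (T \ S) := rfl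

theorem one_apply (T : Finset σ) : (1 : SqK K σ) T = if T = ∅ then 1 else 0 := rfl

instance : Module K (SqK K σ) := inferInstanceAs (Module K (Finset σ → K))

theorem smul_apply (c : K) (f : SqK K σ) (T : Finset σ) : (c • f) T = c * f T := rfl

theorem smul_mul' (c : K) (f g : SqK K σ) : (c • f) * g = c • (f * g) := by
  ext T
  simp only [mul_apply, smul_apply, Finset.mul_sum, mul_assoc]

theorem mul_smul' (c : K) (f g : SqK K σ) : f * (c • g) = c • (f * g) := by
  rw [mul_comm, smul_mul', mul_comm]

instance : IsScalarTower K (SqK K σ) (SqK K σ) := ⟨fun c f g => smul_mul' c f g⟩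
instance : SMulCommClass K (SqK K σ) (SqK K σ) := ⟨fun c f g => (mul_smul' c f g).symm⟩

theorem sum_apply {ι : Type*} (s : Finset ι) (F : ι → SqK K σ) (T : Finset σ) :
    (∑ i ∈ s, F i) T = ∑ i ∈ s, F i T := by
  classical
  induction s using Finset.induction_on with
  | empty => simp
  | insert a s ha ih => rw [Finset.sum_insert ha, Finset.sum_insert ha, add_apply, ih]

/-- squarefree monomials -/
def mono (R : Finset σ) : SqK K σ := fun T => if T = R then 1 else 0

theorem mono_apply (R T : Finset σ) : (mono R : SqK K σ) T = if T = R then 1 else 0 := rfl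

theorem mono_mul_apply (R : Finset σ) (f : SqK K σ) (T : Finset σ) :
    ((mono R : SqK K σ) * f) T = if R ⊆ T then f (T \ R) else 0 := by
  rw [mul_apply]
  split_ifs with h
  · rw [Finset.sum_eq_single R]
    · simp [mono_apply]
    · intro S _ hS; simp [mono_apply, hS]
    · intro h'; exact absurd (Finset.mem_powerset.2 h) h'
  · apply Finset.sum_eq_zero
    intro S hS
    have : S ≠ R := by
      rintro rfl
      exact h (Finset.mem_powerset.1 hS)
    simp [mono_apply, this]

theorem mono_empty : (mono ∅ : SqK K σ) = 1 := rfl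

theorem mono_mul_mono {S T : Finset σ} (h : Disjoint S T) :
    (mono S : SqK K σ) * mono T = mono (S ∪ T) := by
  ext U
  rw [mono_mul_apply]
  by_cases h1 : S ⊆ U
  · rw [if_pos h1, mono_apply, mono_apply]
    have : U \ S = T ↔ U = S ∪ T := by
      constructor
      · rintro rfl
        exact (Finset.union_sdiff_of_subset h1).symm
      · rintro rfl
        rw [Finset.union_sdiff_left]
        exact Finset.sdiff_eq_self_of_disjoint h.symm
    simp only [this]
  · rw [if_neg h1, mono_apply, if_neg]
    rintro rfl
    exact h1 Finset.subset_union_left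

/-- the homogeneous elements of degree `k` -/
def V (K : Type*) [Field K] (σ : Type*) [DecidableEq σ] (k : ℕ) : Submodule K (SqK K σ) where
  carrier := {f | ∀ T, f T ≠ 0 → T.card = k}
  zero_mem' := fun T hT => absurd rfl hT
  add_mem' := by
    intro f g hf hg T hT
    by_cases h : f T = 0
    · apply hg T
      intro h'
      apply hT
      change f T + g T = 0
      rw [h, h', add_zero]
    · exact hf T h
  smul_mem' := by
    intro c f hf T hT
    apply hf T
    intro h
    apply hT
    change c * f T = 0
    rw [h, mul_zero]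

theorem mem_V {k : ℕ} {f : SqK K σ} : f ∈ V K σ k ↔ ∀ T, f T ≠ 0 → T.card = k := Iff.rfl

theorem exists_of_mul_ne_zero {f g : SqK K σ} {T : Finset σ} (h : (f * g) T ≠ 0) :
    ∃ S, S ⊆ T ∧ f S ≠ 0 ∧ g (T \ S) ≠ 0 := by
  rw [mul_apply] at h
  obtain ⟨S, hS, hne⟩ := Finset.exists_ne_zero_of_sum_ne_zero h
  exact ⟨S, Finset.mem_powerset.1 hS, left_ne_zero_of_mul hne, right_ne_zero_of_mul hne⟩

theorem mul_mem_V {a b : ℕ} {f g : SqK K σ} (hf : f ∈ V K σ a) (hg : g ∈ V K σ b) :
    f * g ∈ V K σ (a + b) := by
  intro T hT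
  obtain ⟨S, hST, h1, h2⟩ := exists_of_mul_ne_zero hT
  have h3 := hf S h1
  have h4 := hg _ h2
  have h5 := Finset.card_sdiff_add_card_eq_card hST
  omega

/-- a homogeneous element of positive degree has square zero, in characteristic two -/
theorem sq_eq_zero [CharP K 2] {d : ℕ} (hd : 1 ≤ d) {g : SqK K σ} (hg : g ∈ V K σ d) :
    g * g = 0 := by
  ext T
  rw [mul_apply, zero_apply]
  refine Finset.sum_involution (fun S _ => T \ S) ?_ ?_ ?_ ?_
  · intro S hS
    rw [Finset.sdiff_sdiff_eq_self (Finset.mem_powerset.1 hS), mul_comm (g (T \ S))]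
    exact CharTwo.add_self_eq_zero _
  · intro S hS hne heq
    have h1 : g S ≠ 0 := left_ne_zero_of_mul hne
    have h2 : S = ∅ := by
      have : Disjoint S S := by
        nth_rewrite 1 [← heq]
        exact Finset.sdiff_disjoint
      exact Finset.disjoint_self_iff_empty S |>.1 this
    have h3 := hg S h1
    rw [h2] at h3
    simp at h3
    omega
  · intro S hS; simp
  · intro S hS; exact Finset.sdiff_sdiff_eq_self (Finset.mem_powerset.1 hS)

end SqK

end H26QX
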