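import Pool.Agent.H26.QX.Asm1
import Pool.Agent.H26.QX.LowTot
import Pool.Agent.H26.IX.Main

/-!
# Subfamilies of random tuples of quadratic forms
-/

namespace H26QX

open Finset H67SR Filter

/-- the coefficients of the quadratic forms -/
def coef {n m : ℕ} (lam : Fin m → H67SR.SqA (Fin n)) : Fin m → Pr n → ZMod 2 :=
  fun i p => lam i {p.1.1, p.1.2}

theorem Q_extend {K : Type*} [Field K] [Algebra (ZMod 2) K] {n m k : ℕ} (f : Fin k → Fin m)
    (hf : Function.Injective f) (c : Fin k → K) (q : Fin m → Pr n → ZMod 2) :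
    Q (Function.extend f c 0) q = Q c (fun j => q (f j)) := by
  have hsum : ∀ p : Pr n, ∑ a, Function.extend f c 0 a * algebraMap (ZMod 2) K (q a p) =
      ∑ j, c j * algebraMap (ZMod 2) K (q (f j) p) := by
    intro p
    symm
    apply Fintype.sum_of_injective f hf
    · intro a ha
      rw [Function.extend_apply' _ _ _ (by simpa using ha)]
      simp
    · intro j
      rw [hf.extend_apply]
  ext i j
  unfold Q
  split_ifs with h1 h2
  · exact hsum _
  · exact hsum _
  · rfl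

theorem sub_semireg {n m a : ℕ} (lam : Fin m → H67SR.SqA (Fin n))
    (hlam : ∀ i, lam i ∈ (H26IX.V 2 : Submodule (ZMod 2) (H67SR.SqA (Fin n))))
    (hrank : ∀ c : Fin m → AlgebraicClosure (ZMod 2), c ≠ 0 → n < (Q c (coef lam)).rank + a)
    (J : Finset (Fin m)) (i : Fin m) (hi : i ∉ J) (s : ℕ) (hs : 2 * s + 4 * J.card + a < n)
    (ν : H67SR.SqA (Fin n))
    (hν : ν ∈ (H26IX.V s : Submodule (ZMod 2) (H67SR.SqA (Fin n))))
    (h : ν * lam i ∈ Ideal.span (lam '' (J : Set (Fin m)))) :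
    ν ∈ Ideal.span (lam '' (insert i (J : Set (Fin m)))) := by
  classical
  set k := J.card with hk
  have e : Fin k ≃ J := (J.equivFin).symm
  set f : Fin (k + 1) → Fin m := Fin.snoc (α := fun _ => Fin m) (fun j => (e j : Fin m)) i with hf
  have hf1 : ∀ j : Fin k, f j.castSucc = e j := fun j => by rw [hf, Fin.snoc_castSucc]
  have hf2 : f (Fin.last k) = i := by rw [hf, Fin.snoc_last]
  have hinj : Function.Injective f := by
    intro x y hxy
    induction x using Fin.lastCases with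
    | last =>
      induction y using Fin.lastCases with
      | last => rfl
      | cast y =>
        rw [hf1, hf2] at hxy
        exact absurd (hxy ▸ (e y).2) hi
    | cast x =>
      induction y using Fin.lastCases with
      | last =>
        rw [hf1, hf2] at hxy
        exact absurd (hxy ▸ (e x).2) hi
      | cast y =>
        rw [hf1, hf1] at hxy
        rw [e.injective (Subtype.ext hxy)]
  have h1 := semireg_of_rank (n := n) (m := k + 1) (a := a) (fun j => lam (f j))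
    (fun j => hlam (f j)) (fun c hc => by
      have h2 := hrank (Function.extend f c 0) (fun h0 => hc (by
        funext j
        have := congrFun h0 (f j)
        rwa [hinj.extend_apply] at this))
      rw [Q_extend f hinj] at h2
      exact h2) (Fin.last k) s (by rw [Fin.val_last]; exact hs) ν hν
  have e1 : (fun j => lam (f j)) '' {j | j < Fin.last k} = lam '' (J : Set (Fin m)) := by
    ext x
    constructor
    · rintro ⟨j, hj, rfl⟩
      induction j using Fin.lastCases with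
      | last => exact absurd hj (by simp)
      | cast j => exact ⟨e j, (e j).2, by simp only [hf1]⟩
    · rintro ⟨l, hl, rfl⟩
      refine ⟨(e.symm ⟨l, hl⟩).castSucc, Fin.castSucc_lt_last _, ?_⟩
      simp only [hf1, Equiv.apply_symm_apply]
  have e2 : (fun j => lam (f j)) '' {j | j ≤ Fin.last k} =
      lam '' (insert i (J : Set (Fin m))) := by
    ext x
    constructor
    · rintro ⟨j, _, rfl⟩
      induction j using Fin.lastCases with
      | last => exact ⟨i, Set.mem_insert _ _, by simp only [hf2]⟩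
      | cast j => exact ⟨e j, Set.mem_insert_of_mem _ (e j).2, by simp only [hf1]⟩
    · rintro ⟨l, hl, rfl⟩
      rcases hl with rfl | hl
      · exact ⟨Fin.last k, by simp, by simp only [hf2]⟩
      · refine ⟨(e.symm ⟨l, hl⟩).castSucc, Fin.le_last _, ?_⟩
        simp only [hf1, Equiv.apply_symm_apply]
  rw [e1, e2] at h1
  apply h1
  simp only [hf2]
  exact h

/-! ### counting -/

theorem count_bad {n a : ℕ} (hn : 1 ≤ n) (ha : a ≤ n) (h8 : 8 * n ≤ a.choose 2) :
    (({q : Fin n → Pr n → ZMod 2 | ∃ c : Fin n → AlgebraicClosure (ZMod 2), c ≠ 0 ∧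
      (Q c q).rank + a ≤ n}.ncard : ℕ) : ℝ) ≤
    (2 : ℝ) ^ (n * n.choose 2) * (n * (1 / 2) ^ n) := by
  have h1 := card_bad (AlgebraicClosure (ZMod 2)) (n := n) (m := n) ha
  have hac : a.choose 2 ≤ n.choose 2 := Nat.choose_le_choose 2 ha
  have h2 : ∀ r ∈ Icc 1 n, 2 ^ (n * r) * (2 ^ n * (n ^ 3 * 2 ^ r + 1) ^ r *
      2 ^ (r * (n.choose 2 - a.choose 2))) * 2 ^ ((n - r) * n.choose 2) * 2 ^ n ≤
      2 ^ (n * n.choose 2) := by
    intro r hr
    rw [Finset.mem_Icc] at hr
    have h3 : n ^ 3 * 2 ^ r + 1 ≤ 2 ^ (5 * n) := by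
      have h4 : n ≤ 2 ^ n := (Nat.lt_two_pow_self).le
      have h5 : n ^ 3 ≤ 2 ^ (3 * n) := by
        calc n ^ 3 ≤ (2 ^ n) ^ 3 := Nat.pow_le_pow_left h4 3
          _ = 2 ^ (3 * n) := by rw [← pow_mul, mul_comm]
      have h6 : 2 ^ r ≤ 2 ^ n := Nat.pow_le_pow_right (by norm_num) hr.2
      have h7 : 1 ≤ 2 ^ (4 * n) := Nat.one_le_two_pow
      have h9 : 2 ≤ 2 ^ n := by
        calc 2 = 2 ^ 1 := rfl
          _ ≤ 2 ^ n := Nat.pow_le_pow_right (by norm_num) hn
      calc n ^ 3 * 2 ^ r + 1 ≤ 2 ^ (3 * n) * 2 ^ n + 2 ^ (4 * n) := by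
            exact add_le_add (Nat.mul_le_mul h5 h6) h7
        _ = 2 ^ (4 * n) * 2 := by
            rw [← pow_add]
            ring_nf
        _ ≤ 2 ^ (4 * n) * 2 ^ n := Nat.mul_le_mul_left _ h9
        _ = 2 ^ (5 * n) := by rw [← pow_add]; congr 1; ring
    have h4 : (n ^ 3 * 2 ^ r + 1) ^ r ≤ 2 ^ (5 * n * r) := by
      calc (n ^ 3 * 2 ^ r + 1) ^ r ≤ (2 ^ (5 * n)) ^ r := Nat.pow_le_pow_left h3 r
        _ = 2 ^ (5 * n * r) := by rw [← pow_mul]
    calc 2 ^ (n * r) * (2 ^ n * (n ^ 3 * 2 ^ r + 1) ^ r *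
          2 ^ (r * (n.choose 2 - a.choose 2))) * 2 ^ ((n - r) * n.choose 2) * 2 ^ n
        ≤ 2 ^ (n * r) * (2 ^ n * 2 ^ (5 * n * r) *
          2 ^ (r * (n.choose 2 - a.choose 2))) * 2 ^ ((n - r) * n.choose 2) * 2 ^ n := by
          gcongr
      _ = 2 ^ (n * r + n + 5 * n * r + r * (n.choose 2 - a.choose 2) +
          (n - r) * n.choose 2 + n) := by
          rw [pow_add, pow_add, pow_add, pow_add, pow_add]
          ring
      _ ≤ 2 ^ (n * n.choose 2) := by
          apply Nat.pow_le_pow_right (by norm_num)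
          have h5 : r * (n.choose 2 - a.choose 2) + r * a.choose 2 = r * n.choose 2 := by
            rw [← Nat.mul_add, Nat.sub_add_cancel hac]
          have h6 : (n - r) * n.choose 2 + r * n.choose 2 = n * n.choose 2 := by
            rw [← Nat.add_mul, Nat.sub_add_cancel hr.2]
          have h7 : r * (8 * n) ≤ r * a.choose 2 := Nat.mul_le_mul_left _ h8
          have h9 : n * 1 ≤ n * r := Nat.mul_le_mul_left _ hr.1
          nlinarith
  have h3 : ∀ r ∈ Icc 1 n, ((2 ^ (n * r) * (2 ^ n * (n ^ 3 * 2 ^ r + 1) ^ r *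
      2 ^ (r * (n.choose 2 - a.choose 2))) * 2 ^ ((n - r) * n.choose 2) : ℕ) : ℝ) ≤
      (2 : ℝ) ^ (n * n.choose 2) * (1 / 2) ^ n := by
    intro r hr
    have h4 : ((2 ^ (n * r) * (2 ^ n * (n ^ 3 * 2 ^ r + 1) ^ r *
      2 ^ (r * (n.choose 2 - a.choose 2))) * 2 ^ ((n - r) * n.choose 2) : ℕ) : ℝ) * 2 ^ n ≤
      (2 : ℝ) ^ (n * n.choose 2) := by exact_mod_cast h2 r hr
    rw [one_div, inv_pow, ← div_eq_mul_inv, le_div_iff₀ (by positivity)]
    exact h4
  calc (({q : Fin n → Pr n → ZMod 2 | ∃ c : Fin n → AlgebraicClosure (ZMod 2), c ≠ 0 ∧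
      (Q c q).rank + a ≤ n}.ncard : ℕ) : ℝ)
      ≤ ((∑ r ∈ Icc 1 n, 2 ^ (n * r) * (2 ^ n * (n ^ 3 * 2 ^ r + 1) ^ r *
      2 ^ (r * (n.choose 2 - a.choose 2))) * 2 ^ ((n - r) * n.choose 2) : ℕ) : ℝ) := by
        exact_mod_cast h1
    _ = ∑ r ∈ Icc 1 n, ((2 ^ (n * r) * (2 ^ n * (n ^ 3 * 2 ^ r + 1) ^ r *
      2 ^ (r * (n.choose 2 - a.choose 2))) * 2 ^ ((n - r) * n.choose 2) : ℕ) : ℝ) := by
        rw [Nat.cast_sum]
    _ ≤ ∑ _r ∈ Icc 1 n, (2 : ℝ) ^ (n * n.choose 2) * (1 / 2) ^ n := Finset.sum_le_sum h3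
    _ = _ := by
        rw [Finset.sum_const, Nat.card_Icc, nsmul_eq_mul, Nat.add_sub_cancel]
        ring

end H26QX
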